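import Pool.Agent.H140.PE.Stm

/-!
# Almost primes with prescribed parities among the values of polynomials (task FEWP, helper650)
-/

set_option autoImplicit false

namespace Pool.Agent.H140.PE

open Polynomial Filter Topology
open scoped Classical
open Pool.Agent.H985.Chow (mob MD)
open Pool.Agent.H985.Par (Sft)
open Pool.Agent.H694.Typ (Mn mem_Mn card_Mn PU mem_PU)
open Pool.Agent.H225.Par (Sd vf lf Om)
open UniqueFactorizationMonoid (factors)

namespace Few

set_option linter.unusedSectionVars false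

variable {K : Type} [Field K] [Fintype K]

theorem Sft_irr {m : ℕ} {F P : K[X]} (hs : Sft m F) (hP : Irreducible P) (hd : P ∣ F) :
    m < P.natDegree := by
  have hP0 : P ≠ 0 := hP.ne_zero
  have hu : IsUnit (C (P.leadingCoeff)⁻¹ : K[X]) :=
    isUnit_C.2 (IsUnit.mk0 _ (inv_ne_zero (mt leadingCoeff_eq_zero.1 hP0)))
  have h1 : (P * C (P.leadingCoeff)⁻¹).Monic := monic_mul_leadingCoeff_inv hP0
  have h2 : Irreducible (P * C (P.leadingCoeff)⁻¹) := (irreducible_mul_isUnit hu).2 hP
  have h3 : P * C (P.leadingCoeff)⁻¹ ∣ F := (hu.mul_right_dvd).2 hd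
  have h4 := hs _ h1 h2 h3
  have h5 : (P * C (P.leadingCoeff)⁻¹).natDegree = P.natDegree := by
    apply natDegree_mul_leadingCoeff_self_inv
  omega

theorem factors_le {m n : ℕ} {F : K[X]} (hF : F ≠ 0) (hn : F.natDegree ≤ n) (hs : Sft m F) :
    Multiset.card (factors F) * (m + 1) ≤ n := by
  have h1 : Associated (factors F).prod F := UniqueFactorizationMonoid.factors_prod hF
  have h2 : (factors F).prod.natDegree = F.natDegree := by
    obtain ⟨u, hu⟩ := h1
    have h := congrArg natDegree hu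
    rw [natDegree_mul (by
      intro h0
      rw [h0, zero_mul] at hu
      exact hF hu.symm) u.ne_zero, natDegree_coe_units, add_zero] at h
    exact h
  have h3 : (factors F).prod.natDegree = ((factors F).map natDegree).sum :=
    natDegree_multiset_prod _ (fun h0 =>
      (UniqueFactorizationMonoid.irreducible_of_factor _ h0).ne_zero rfl)
  have h4 : Multiset.card ((factors F).map natDegree) • (m + 1) ≤
      ((factors F).map natDegree).sum := by
    apply Multiset.card_nsmul_le_sum
    intro x hx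
    rw [Multiset.mem_map] at hx
    obtain ⟨P, hP, rfl⟩ := hx
    exact Sft_irr hs (UniqueFactorizationMonoid.irreducible_of_factor _ hP)
      (UniqueFactorizationMonoid.dvd_of_mem_factors hP)
  rw [Multiset.card_map, smul_eq_mul] at h4
  omega

/-- the zeros modulo `P` -/
def Zs (F : K[X][X]) (P : K[X]) : Set K[X] := {z : K[X] | z.degree < P.degree ∧ P ∣ F.eval z}

theorem om_eq (F : K[X][X]) (P : K[X]) : om F P = (Zs F P).ncard := rfl

theorem eq_of_dvd {P z w : K[X]} (hz : z.degree < P.degree) (hw : w.degree < P.degree)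
    (h : P ∣ z - w) : z = w := by
  have h1 : (z - w).degree < P.degree := lt_of_le_of_lt (degree_sub_le _ _) (max_lt hz hw)
  exact sub_eq_zero.1 (eq_zero_of_dvd_of_degree_lt h h1)

theorem dvd_eval {F : K[X][X]} {P a b : K[X]} (h : P ∣ a - b) : P ∣ F.eval a ↔ P ∣ F.eval b := by
  have h1 : P ∣ F.eval a - F.eval b := h.trans (sub_dvd_eval_sub a b F)
  exact (dvd_iff_dvd_of_dvd_sub h1)

theorem Zs_card {F : K[X][X]} {P : K[X]} (hP : Irreducible P) {x : K[X]}
    (hx : ¬ P ∣ F.eval x) : (Zs F P).Finite ∧ (Zs F P).ncard ≤ F.natDegree := by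
  have : Fact (Irreducible P) := ⟨hP⟩
  set φ : K[X] →+* AdjoinRoot P := AdjoinRoot.mk P with hφ
  set F' : (AdjoinRoot P)[X] := F.map φ with hF'
  have hev : ∀ z : K[X], F'.eval (φ z) = φ (F.eval z) := by
    intro z
    rw [hF', eval_map, eval₂_at_apply]
  have hF0 : F' ≠ 0 := by
    intro h
    have h1 := hev x
    rw [h, eval_zero] at h1
    exact hx (AdjoinRoot.mk_eq_zero.1 h1.symm)
  have hmaps : ∀ z ∈ Zs F P, φ z ∈ (F'.roots.toFinset : Set (AdjoinRoot P)) := by
    intro z hz
    rw [Finset.mem_coe, Multiset.mem_toFinset, mem_roots hF0, IsRoot.def, hev]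
    exact AdjoinRoot.mk_eq_zero.2 hz.2
  have hinj : Set.InjOn φ (Zs F P) := by
    intro z hz w hw h
    refine eq_of_dvd hz.1 hw.1 ?_
    rw [← AdjoinRoot.mk_eq_zero, map_sub]
    exact sub_eq_zero.2 h
  have hfin : (Zs F P).Finite :=
    Set.Finite.of_injOn hmaps hinj (Finset.finite_toSet _)
  refine ⟨hfin, ?_⟩
  have h1 := Set.ncard_le_ncard_of_injOn φ hmaps hinj (Finset.finite_toSet _)
  rw [Set.ncard_coe_finset] at h1
  calc (Zs F P).ncard ≤ F'.roots.toFinset.card := h1
    _ ≤ Multiset.card F'.roots := Multiset.toFinset_card_le _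
    _ ≤ F'.natDegree := card_roots' _
    _ ≤ F.natDegree := natDegree_map_le

theorem om_le (F : K[X][X]) {P : K[X]} (hP : P ≠ 0) : om F P ≤ Fintype.card K ^ P.natDegree := by
  rw [om_eq]
  have h1 : Set.InjOn (fun z : K[X] => (fun j : Fin P.natDegree => z.coeff j)) (Zs F P) := by
    intro z hz w hw h
    ext j
    by_cases hj : j < P.natDegree
    · exact congrFun h ⟨j, hj⟩
    · have hz1 := hz.1
      have hw1 := hw.1
      rw [degree_eq_natDegree hP] at hz1 hw1
      rw [coeff_eq_zero_of_degree_lt (lt_of_lt_of_le hz1 (by exact_mod_cast not_lt.1 hj)),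
        coeff_eq_zero_of_degree_lt (lt_of_lt_of_le hw1 (by exact_mod_cast not_lt.1 hj))]
  have h2 := Set.ncard_le_ncard_of_injOn (fun z : K[X] => (fun j : Fin P.natDegree => z.coeff j))
    (fun z _ => Set.mem_univ _) h1 Set.finite_univ
  rw [Set.ncard_univ, Nat.card_eq_fintype_card, Fintype.card_fun, Fintype.card_fin] at h2
  exact h2

theorem exists_enum {Z : Set K[X]} (hne : Z.Nonempty) (hfin : Z.Finite) {D : ℕ}
    (hD : Z.ncard ≤ D) : ∃ b : Fin D → K[X], Set.range b = Z := by
  have : Nonempty Z := hne.to_subtype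
  have : Fintype Z := hfin.fintype
  have hc : Fintype.card Z ≤ Fintype.card (Fin D) := by
    rw [Fintype.card_fin, ← Nat.card_eq_fintype_card]
    exact hD
  obtain ⟨e⟩ := Function.Embedding.nonempty_of_card_le hc
  refine ⟨fun i => (Function.invFun e i : Z), ?_⟩
  ext z
  constructor
  · rintro ⟨i, rfl⟩
    exact (Function.invFun e i).2
  · intro hz
    obtain ⟨i, hi⟩ := Function.invFun_surjective e.injective ⟨z, hz⟩
    exact ⟨i, congrArg Subtype.val hi⟩

/-- the degree of a value -/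
theorem degree_eval (f : K[X][X]) : ∃ A : ℕ, ∀ (n : ℕ) (g : K[X]), g.natDegree = n →
    (f.eval g).natDegree ≤ A * (n + 1) := by
  refine ⟨f.natDegree + ∑ j ∈ Finset.range (f.natDegree + 1), (f.coeff j).natDegree, ?_⟩
  intro n g hg
  rw [eval_eq_sum_range]
  refine natDegree_sum_le_of_forall_le _ _ fun j hj => ?_
  have h1 : (f.coeff j * g ^ j).natDegree ≤ (f.coeff j).natDegree + j * n := by
    refine natDegree_mul_le.trans ?_
    have := natDegree_pow_le (p := g) (n := j)
    rw [hg] at this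
    omega
  have h2 : (f.coeff j).natDegree ≤
      ∑ j ∈ Finset.range (f.natDegree + 1), (f.coeff j).natDegree :=
    Finset.single_le_sum (f := fun j => (f.coeff j).natDegree) (fun _ _ => Nat.zero_le _) hj
  have h3 : j ≤ f.natDegree := by rw [Finset.mem_range] at hj; omega
  nlinarith [Nat.mul_le_mul_right n h3]

theorem degree_evals {k : ℕ} (f : Fin k → K[X][X]) : ∃ A : ℕ, ∀ (i : Fin k) (n : ℕ) (g : K[X]),
    g.natDegree = n → ((f i).eval g).natDegree ≤ A * (n + 1) := by
  choose A hA using fun i => degree_eval (f i)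
  refine ⟨∑ i, A i, fun i n g hg => (hA i n g hg).trans ?_⟩
  exact Nat.mul_le_mul_right _ (Finset.single_le_sum (f := A) (fun _ _ => Nat.zero_le _)
    (Finset.mem_univ i))

end Few

open Few in
/-- **Task FEWP.** -/
theorem fewP (h : S_patP) (hl : S_lowB) : S_fewP := by
  intro K _ _ _ k f μ hsys hadm
  obtain ⟨κ, hκ, y₀, n₀, hp⟩ := h K k f μ (1 / 2 / 2 ^ k) hsys (by positivity)
  set F : K[X][X] := ∏ i, f i with hF
  obtain ⟨c, hc, B, hlow⟩ := hl K F.natDegree 1 (1 / 2) one_ne_zero (by norm_num)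
  obtain ⟨A, hA⟩ := degree_evals f
  obtain ⟨κ', hκ'⟩ : ∃ κ' : ℝ, κ' = min κ (1 / (B + 1)) := ⟨_, rfl⟩
  have hκ'0 : 0 < κ' := by rw [hκ']; exact lt_min hκ (by positivity)
  obtain ⟨r, hr⟩ := exists_nat_ge ((2 * A + 1) / κ')
  have hr1 : (2 * A + 1 : ℝ) ≤ r * κ' := by rwa [div_le_iff₀ hκ'0] at hr
  refine ⟨r, 1 / 2 * (1 / 2 / 2 ^ k), by positivity,
    max (max n₀ (B + 1)) ⌈((y₀ : ℝ) + 2) / κ'⌉₊, ?_⟩
  intro n hn σ hσ
  have hn0 : n₀ ≤ n := le_trans (le_trans (le_max_left _ _) (le_max_left _ _)) hn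
  have hnB : B + 1 ≤ n := le_trans (le_trans (le_max_right _ _) (le_max_left _ _)) hn
  have hn1 : ((y₀ : ℝ) + 2) / κ' ≤ n := by
    have h1 : ⌈((y₀ : ℝ) + 2) / κ'⌉₊ ≤ n := le_trans (le_max_right _ _) hn
    exact (Nat.le_ceil _).trans (by exact_mod_cast h1)
  have hn2 : (y₀ : ℝ) + 2 ≤ κ' * n := by
    rw [div_le_iff₀ hκ'0] at hn1
    linarith
  obtain ⟨y, hy⟩ : ∃ y : ℕ, y = ⌊κ' * n⌋₊ := ⟨_, rfl⟩
  have hy1 : (y : ℝ) ≤ κ' * n := by
    rw [hy]
    exact Nat.floor_le (by positivity)
  have hy2 : κ' * n < (y : ℝ) + 1 := by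
    rw [hy]
    exact Nat.lt_floor_add_one _
  have hy3 : y₀ + 1 ≤ y := by
    have : (y₀ : ℝ) + 1 < (y : ℝ) := by linarith
    have h : y₀ + 1 < y := by exact_mod_cast this
    omega
  have hyκ : (y : ℝ) ≤ κ * n := hy1.trans
    (mul_le_mul_of_nonneg_right (by rw [hκ']; exact min_le_left _ _) (by positivity))
  have hBy' : ((B : ℝ) + 1) * y ≤ n := by
    have h2 : (y : ℝ) ≤ 1 / (B + 1) * n := hy1.trans
      (mul_le_mul_of_nonneg_right (by rw [hκ']; exact min_le_right _ _) (by positivity))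
    calc ((B : ℝ) + 1) * y ≤ (B + 1) * (1 / (B + 1) * n) :=
          mul_le_mul_of_nonneg_left h2 (by positivity)
      _ = n := by field_simp
  have hBy'' : (B + 1) * y ≤ n := by exact_mod_cast hBy'
  have hBy : B * y ≤ n := by nlinarith
  have hyn : y ≤ n := by nlinarith
  have hnpos : (0 : ℝ) < n := by
    have : 0 < n := by omega
    exact_mod_cast this
  -- the enumeration of the zeros
  have hen : ∀ P : K[X], ∃ b : Fin F.natDegree → K[X],
      P.Monic → Irreducible P → (Zs F P).Nonempty → Set.range b = Zs F P := by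
    intro P
    by_cases hP : P.Monic ∧ Irreducible P ∧ (Zs F P).Nonempty
    · obtain ⟨x, hx⟩ := hadm P hP.1 hP.2.1
      obtain ⟨h1, h2⟩ := Zs_card hP.2.1 hx
      obtain ⟨b, hb⟩ := exists_enum hP.2.2 h1 h2
      exact ⟨b, fun _ _ _ => hb⟩
    · exact ⟨fun _ => 0, fun h1 h2 h3 => absurd ⟨h1, h2, h3⟩ hP⟩
  choose β hβ using hen
  set Ps : Finset K[X] := (PU K y).filter (fun P => (Zs F P).Nonempty) with hPs
  have hPs' : ∀ P, P ∈ Ps ↔ P.Monic ∧ Irreducible P ∧ P.natDegree ≤ y ∧ (Zs F P).Nonempty := by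
    intro P
    rw [hPs, Finset.mem_filter, mem_PU]
    tauto
  have hsieve : SieveB y 1 Ps β := by
    refine ⟨fun P hP => ?_, fun P hP => ?_⟩
    · rw [hPs'] at hP
      exact ⟨hP.1, hP.2.1, hP.2.2.1, fun hd => hP.2.1.not_isUnit (isUnit_of_dvd_one hd)⟩
    · rw [hPs'] at hP
      obtain ⟨x, hx⟩ := hadm P hP.1 hP.2.1
      refine ⟨x, fun i hi => hx ?_⟩
      rw [dvd_eval hi]
      have : β P i ∈ Zs F P := by
        rw [← hβ P hP.1 hP.2.1 hP.2.2.2]; exact Set.mem_range_self i
      exact this.2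
  -- the sifted sets agree
  have hS : SfB K n 1 0 Ps β = SfP K f n y := by
    unfold SfB SfP
    apply Finset.filter_congr
    intro g _
    have hprod : ∀ P : K[X], Irreducible P → ((∃ i, P ∣ (f i).eval g) ↔ P ∣ F.eval g) := by
      intro P hP
      rw [hF, eval_prod, hP.prime.dvd_finsetProd_iff]
      simp
    constructor
    · rintro ⟨-, h2⟩ i P hP1 hP2 hd
      by_contra hlt
      rw [not_lt] at hlt
      have hd' : P ∣ F.eval g := (hprod P hP2).1 ⟨i, hd⟩
      have hmem : g %ₘ P ∈ Zs F P := by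
        refine ⟨degree_modByMonic_lt _ hP1, ?_⟩
        have h3 : P ∣ g - g %ₘ P := by
          refine ⟨g /ₘ P, ?_⟩
          have := modByMonic_add_div g P
          linear_combination (-1 : K[X]) * this
        exact (dvd_eval h3).1 hd'
      have hP : P ∈ Ps := (hPs' P).2 ⟨hP1, hP2, hlt, ⟨_, hmem⟩⟩
      have hmem' := hmem
      rw [← hβ P hP1 hP2 ⟨_, hmem⟩] at hmem'
      obtain ⟨j, hj⟩ := hmem'
      refine h2 P hP j ?_
      rw [hj]
      refine ⟨g /ₘ P, ?_⟩
      have := modByMonic_add_div g P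
      linear_combination (-1 : K[X]) * this
    · intro h2
      refine ⟨one_dvd _, fun P hP j hd => ?_⟩
      rw [hPs'] at hP
      have hz : β P j ∈ Zs F P := by
        rw [← hβ P hP.1 hP.2.1 hP.2.2.2]; exact Set.mem_range_self j
      have h3 : P ∣ F.eval g := (dvd_eval hd).2 hz.2
      obtain ⟨i, hi⟩ := (hprod P hP.2.1).2 h3
      have := h2 i P hP.1 hP.2.1 hi
      omega
  obtain ⟨-, l1, -⟩ := hlow n y (by omega) hBy (by omega) 0 Ps β hsieve
  rw [natDegree_one, pow_zero, one_mul, hS] at l1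
  -- the density
  set q : ℝ := (Fintype.card K : ℝ) with hq
  have hq0 : 0 < q := by rw [hq]; exact_mod_cast Fintype.card_pos
  have hfac : ∀ P ∈ PU K n, 0 ≤ 1 - (om F P : ℝ) / q ^ P.natDegree ∧
      1 - (om F P : ℝ) / q ^ P.natDegree ≤ 1 := by
    intro P hP
    rw [mem_PU] at hP
    have h1 : (om F P : ℝ) ≤ q ^ P.natDegree := by
      rw [hq]; exact_mod_cast om_le F hP.1.ne_zero
    constructor
    · rw [sub_nonneg, div_le_one (by positivity)]; exact h1
    · have : 0 ≤ (om F P : ℝ) / q ^ P.natDegree := by positivity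
      linarith
  have hsub : PU K y ⊆ PU K n := by
    intro P hP
    rw [mem_PU] at hP ⊢
    exact ⟨hP.1, hP.2.1, hP.2.2.trans hyn⟩
  have hvf : ∏ P ∈ PU K n, (1 - (om F P : ℝ) / q ^ P.natDegree) ≤ vf Ps β := by
    calc ∏ P ∈ PU K n, (1 - (om F P : ℝ) / q ^ P.natDegree)
        ≤ ∏ P ∈ PU K y, (1 - (om F P : ℝ) / q ^ P.natDegree) := by
          rw [← Finset.prod_sdiff hsub]
          refine mul_le_of_le_one_left
            (Finset.prod_nonneg fun P hP => (hfac P (hsub hP)).1) ?_
          exact Finset.prod_le_one (fun P hP => (hfac P (Finset.mem_sdiff.1 hP).1).1)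
            (fun P hP => (hfac P (Finset.mem_sdiff.1 hP).1).2)
      _ = ∏ P ∈ Ps, (1 - (om F P : ℝ) / q ^ P.natDegree) := by
          symm
          refine Finset.prod_subset (Finset.filter_subset _ _) fun P hP hP' => ?_
          have h1 : Zs F P = ∅ := by
            by_contra hne
            exact hP' (Finset.mem_filter.2 ⟨hP, Set.nonempty_iff_ne_empty.2 hne⟩)
          rw [om_eq, h1, Set.ncard_empty]
          simp
      _ = vf Ps β := by
          unfold vf
          refine Finset.prod_congr rfl fun P hP => ?_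
          rw [hPs'] at hP
          have hr := hβ P hP.1 hP.2.1 hP.2.2.2
          have h1 : (Om (β P) P).card = om F P := by
            rw [om_eq, ← hr, ← Set.ncard_coe_finset]
            congr 1
            unfold Om
            rw [Finset.coe_image, Finset.coe_univ, Set.image_univ]
            ext z
            constructor
            · rintro ⟨i, rfl⟩
              have hz : β P i ∈ Zs F P := by rw [← hr]; exact Set.mem_range_self i
              exact ⟨i, ((modByMonic_eq_self_iff hP.1).2 hz.1).symm⟩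
            · rintro ⟨i, rfl⟩
              have hz : β P i ∈ Zs F P := by rw [← hr]; exact Set.mem_range_self i
              exact ⟨i, (modByMonic_eq_self_iff hP.1).2 hz.1⟩
          unfold lf
          rw [h1]
  have h5 := hp n hn0 y (by omega) hyκ σ hσ
  rw [abs_le] at h5
  have h6 : 1 / 2 * (q ^ n * ∏ P ∈ PU K n, (1 - (om F P : ℝ) / q ^ P.natDegree)) ≤
      ((SfP K f n y).card : ℝ) := by
    refine le_trans ?_ l1
    have h61 : 0 ≤ q ^ n := by positivity
    nlinarith [mul_le_mul_of_nonneg_left hvf h61]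
  have h7 : 1 / 2 * (1 / 2 / 2 ^ k) * q ^ n *
      ∏ P ∈ PU K n, (1 - (om F P : ℝ) / q ^ P.natDegree) ≤
      (((SfP K f n y).filter (fun g => ∀ i, mob ((f i).eval g) = σ i)).card : ℝ) := by
    have e1 : 1 / 2 * (1 / 2 / 2 ^ k) * q ^ n *
      ∏ P ∈ PU K n, (1 - (om F P : ℝ) / q ^ P.natDegree) =
        (1 / 2 / 2 ^ k) * (1 / 2 * (q ^ n *
          ∏ P ∈ PU K n, (1 - (om F P : ℝ) / q ^ P.natDegree))) := by ring
    have e2 : ((SfP K f n y).card : ℝ) / 2 ^ k - 1 / 2 / 2 ^ k * (SfP K f n y).card =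
        1 / 2 / 2 ^ k * (SfP K f n y).card := by ring
    rw [e1]
    have e3 := mul_le_mul_of_nonneg_left h6 (show (0 : ℝ) ≤ 1 / 2 / 2 ^ k by positivity)
    linarith [h5.1]
  refine h7.trans ?_
  norm_cast
  refine Finset.card_le_card fun g hg => ?_
  unfold SfP at hg
  rw [Finset.mem_filter, Finset.mem_filter] at hg
  obtain ⟨⟨hg1, hg2⟩, hg3⟩ := hg
  rw [Finset.mem_filter]
  refine ⟨hg1, fun i => ?_⟩
  have hmob := hg3 i
  have hsq : Squarefree ((f i).eval g) := by
    by_contra hne
    unfold mob at hmob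
    rw [if_neg hne] at hmob
    rcases hσ i with h8 | h8 <;> rw [h8] at hmob <;> norm_num at hmob
  have hne : (f i).eval g ≠ 0 := hsq.ne_zero
  have hsft : Sft y ((f i).eval g) := fun P hP1 hP2 hd => hg2 i P hP1 hP2 hd
  refine ⟨hmob, ?_, ?_⟩
  · rw [mem_Mn] at hg1
    have h8 := factors_le hne (hA i n g hg1.2) hsft
    have h10 : ((Multiset.card (factors ((f i).eval g)) : ℝ)) * ((y : ℝ) + 1) ≤
        A * ((n : ℝ) + 1) := by exact_mod_cast h8
    have h11 : A * ((n : ℝ) + 1) ≤ 2 * A * n := by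
      have : (1 : ℝ) ≤ n := by
        have : 1 ≤ n := by omega
        exact_mod_cast this
      have hA0 : (0 : ℝ) ≤ A := Nat.cast_nonneg A
      nlinarith
    have h9 : (Multiset.card (factors ((f i).eval g)) : ℝ) * (κ' * n) ≤ 2 * A * n := by
      refine le_trans ?_ (h10.trans h11)
      exact mul_le_mul_of_nonneg_left hy2.le (by positivity)
    have h12 : (Multiset.card (factors ((f i).eval g)) : ℝ) * κ' ≤ 2 * A := by
      have h12 : ((Multiset.card (factors ((f i).eval g)) : ℝ) * κ') * n ≤ (2 * A) * n := by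
        linarith
      exact le_of_mul_le_mul_right h12 hnpos
    have h13 : (Multiset.card (factors ((f i).eval g)) : ℝ) ≤ r := by
      have h14 : (Multiset.card (factors ((f i).eval g)) : ℝ) * κ' ≤ r * κ' := by linarith
      exact le_of_mul_le_mul_right h14 hκ'0
    exact_mod_cast h13
  · intro P hP hPd
    have h8 := Sft_irr hsft hP hPd
    have h9 : (n : ℝ) ≤ ((r : ℝ) + 1) * P.natDegree := by
      have h10 : ((y : ℝ) + 1) ≤ P.natDegree := by exact_mod_cast h8
      have h11 : (n : ℝ) ≤ r * (κ' * n) := by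
        have h111 : (1 : ℝ) ≤ r * κ' := by
          have hA0 : (0 : ℝ) ≤ A := Nat.cast_nonneg A
          linarith
        nlinarith
      have h12 : r * (κ' * n) ≤ (r : ℝ) * P.natDegree :=
        mul_le_mul_of_nonneg_left (by linarith) (by positivity)
      have h13 : (0 : ℝ) ≤ P.natDegree := by positivity
      linarith
    exact_mod_cast h9

end Pool.Agent.H140.PE
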