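import Mathlib
import Pool.Agent.H140.E.Stm
import Pool.Agent.H225.Par.Sieve
import Pool.Agent.H985.Par.StmPar

/-!
# Parity in sifted sets of polynomial values over `F_q[X]`, `q` even: statements of the parts

`K` is a finite field of characteristic two.  For the polynomials of the theorem in
`Pool.Agent.H140.E` (all roots `θ` are such that `μ θ` is rational plus a separable square), the
parity of the number of prime factors of the values is equidistributed in sifted sets.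
-/

set_option autoImplicit false

namespace Pool.Agent.H140.PE

open Polynomial
open scoped Classical
open Pool.Agent.H985.Chow (mob MD)
open Pool.Agent.H985.Par (mass Fb S_sw S_typV)
open Pool.Agent.H694.Typ (Mn mem_Mn card_Mn PU mem_PU)
open Pool.Agent.H225.Par (Sd vf)
open Pool.Agent.H140.Q (mobM)
open Pool.Agent.H140.E (PhE SepE S_win5E S_cntE S_bigE)

/-- **Task FIBE.**  The typical fibre: power saving for all `b` outside a small set, in
progressions. -/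
def S_fibE : Prop :=
  ∀ (K : Type) [Field K] [Fintype K] [CharP K 2] (r : ℕ) (cp u v : Fin r → K[X][X])
    (N m s t : Fin r → K[X]) (ε : ℝ), 1 ≤ r → (∀ j, SepE (cp j) (u j) (v j) (N j)) →
    (∀ j, (m j).Monic) → Function.Injective t → 0 < ε →
    ∃ κ θ c : ℝ, 0 < κ ∧ κ ≤ 1 / 8 ∧ 0 < θ ∧ 0 < c ∧ ∃ n₀ : ℕ, ∀ n : ℕ, n₀ ≤ n →
    ∀ R : Set K[X], mass R n ≤ θ * n →
      ∃ Exc : Set K[X], Exc ⊆ Fb K n ∧
        (Exc.ncard : ℝ) ≤ ε * (Fintype.card K : ℝ) ^ (n / 2) ∧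
        ∀ b ∈ Fb K n, b ∉ Exc → ∃ E : K[X], E.Monic ∧ (E.natDegree : ℝ) ≤ κ * n ∧
          (∀ P ∈ R, P.Monic → Irreducible P → (∃ j, P ∣ b + t j) → P ∣ E) ∧
          ∀ (M : K[X]) (L : ℕ) (a : K[X]) (χ : AddChar K[X] ℝ),
            M ≠ 0 → E ∣ M → (M.natDegree : ℝ) ≤ 4 * κ * n →
            (∀ P : K[X], P.Monic → Irreducible P → P ∣ M → P ∣ E ∨ ∀ j, ¬ P ∣ b + t j) →
            (a ^ 2 + X * b ^ 2).Monic → (a ^ 2 + X * b ^ 2).natDegree = n →
            (1 - 3 * κ) * n ≤ 2 * ((M.natDegree : ℝ) + L) →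
            2 * ((M.natDegree : ℝ) + L) ≤ (1 - κ) * n →
            |∑ᶠ x ∈ {x : K[X] | x.degree < (L : WithBot ℕ)}, χ x * ∏ j,
              (mobM (m j) (N j) ((PhE (cp j)).eval ((a + s j + M * x) ^ 2 +
                X * (b + t j) ^ 2)) : ℝ)| ≤ (Fintype.card K : ℝ) ^ ((L : ℝ) - c * n)

/-- The monic `a` of degree `n` in the residue class of `ρ` modulo `Q`, outside the residue classes
`β P i` modulo the primes `P ∈ Ps`. -/
noncomputable def SfB (K : Type) [Field K] [Fintype K] {D : ℕ} (n : ℕ) (Q ρ : K[X])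
    (Ps : Finset K[X]) (β : K[X] → Fin D → K[X]) : Finset K[X] :=
  (Mn K n).filter (fun a => Q ∣ a - ρ ∧ Sd Ps β a)

/-- A sieve with primes of degree at most `y` not dividing `Q`. -/
def SieveB {K : Type} [Field K] {D : ℕ} (y : ℕ) (Q : K[X]) (Ps : Finset K[X])
    (β : K[X] → Fin D → K[X]) : Prop :=
  (∀ P ∈ Ps, P.Monic ∧ Irreducible P ∧ P.natDegree ≤ y ∧ ¬ P ∣ Q) ∧
    ∀ P ∈ Ps, ∃ x : K[X], ∀ i, ¬ P ∣ x - β P i

/-- **Task LOWB.**  The sieve in a residue class. -/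
def S_lowB : Prop :=
  ∀ (K : Type) [Field K] [Fintype K] (D : ℕ) (Q : K[X]) (ε : ℝ), Q ≠ 0 → 0 < ε →
    ∃ c : ℝ, 0 < c ∧ ∃ B : ℕ, ∀ n y : ℕ, 1 ≤ y → B * y ≤ n → B ≤ n →
      ∀ (ρ : K[X]) (Ps : Finset K[X]) (β : K[X] → Fin D → K[X]), SieveB y Q Ps β →
        c / (y : ℝ) ^ D ≤ vf Ps β ∧
        (1 - ε) * vf Ps β * (Fintype.card K : ℝ) ^ n ≤
          (Fintype.card K : ℝ) ^ Q.natDegree * (SfB K n Q ρ Ps β).card ∧
        (Fintype.card K : ℝ) ^ Q.natDegree * (SfB K n Q ρ Ps β).card ≤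
          (1 + ε) * vf Ps β * (Fintype.card K : ℝ) ^ n

/-- **Task PARE.**  Parity in sifted sets, normal form. -/
def S_parE : Prop :=
  ∀ (K : Type) [Field K] [Fintype K] [CharP K 2] (r : ℕ) (cp u v : Fin r → K[X][X])
    (N m s t : Fin r → K[X]) (D : ℕ) (Q : K[X]) (ε : ℝ), 1 ≤ r →
    (∀ j, SepE (cp j) (u j) (v j) (N j)) → (∀ j, (m j).Monic) → Function.Injective t → Q ≠ 0 →
    0 < ε → ∃ κ : ℝ, 0 < κ ∧ ∃ y₀ n₀ : ℕ, ∀ n : ℕ, n₀ ≤ n → ∀ y : ℕ, y₀ ≤ y → (y : ℝ) ≤ κ * n →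
      ∀ (ρ : K[X]) (Ps : Finset K[X]) (β : K[X] → Fin D → K[X]), SieveB y Q Ps β →
        |∑ a ∈ SfB K n Q ρ Ps β, ∏ j,
          (mobM (m j) (N j) ((PhE (cp j)).eval (a + (s j ^ 2 + X * t j ^ 2))) : ℝ)| ≤
            ε * (SfB K n Q ρ Ps β).card

/-- For every root `θ` of `f` in an algebraic closure of `K(X)`, the product `μ θ` is the difference
of the square of an element separable over `K(X)` and an element of `K(X)`. -/
def SqR {K : Type} [Field K] (f : K[X][X]) (μ : K[X]) : Prop :=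
  ∀ θ : AlgebraicClosure (RatFunc K), aeval θ f = 0 →
    ∃ (s : RatFunc K) (σ : AlgebraicClosure (RatFunc K)), IsSeparable (RatFunc K) σ ∧
      σ ^ 2 = algebraMap K[X] (AlgebraicClosure (RatFunc K)) μ * θ +
        algebraMap (RatFunc K) (AlgebraicClosure (RatFunc K)) s

/-- **Task PARF.**  Parity of the values of one polynomial in sifted sets. -/
def S_parF : Prop :=
  ∀ (K : Type) [Field K] [Fintype K] [CharP K 2] (f : K[X][X]) (μ : K[X]) (D : ℕ) (ε : ℝ),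
    0 < f.natDegree → (f.map (algebraMap K[X] (RatFunc K))).Separable → μ ≠ 0 → SqR f μ → 0 < ε →
    ∃ κ : ℝ, 0 < κ ∧ ∃ y₀ n₀ : ℕ, ∀ n : ℕ, n₀ ≤ n → ∀ y : ℕ, y₀ ≤ y → (y : ℝ) ≤ κ * n →
      ∀ (Ps : Finset K[X]) (β : K[X] → Fin D → K[X]), SieveB y 1 Ps β →
        (∀ P : K[X], P.Monic → Irreducible P → P.natDegree ≤ y → ∀ g : K[X], P ∣ f.eval g →
          P ∈ Ps ∧ ∃ i, P ∣ g - β P i) →
        |∑ g ∈ SfB K n 1 0 Ps β, (mob (f.eval g) : ℝ)| ≤ ε * (SfB K n 1 0 Ps β).card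

/-- **Task SQF.**  Values divisible by the square of a prime of degree larger than `y`. -/
def S_sqF : Prop :=
  ∀ (K : Type) [Field K] [Fintype K] [CharP K 2] (f : K[X][X]) (μ : K[X]),
    0 < f.natDegree → (f.map (algebraMap K[X] (RatFunc K))).Separable → μ ≠ 0 → SqR f μ →
    ∃ C n₀ : ℕ, ∀ n y : ℕ, n₀ ≤ n → n₀ ≤ y →
      ((MD K n ∩ {g | ∃ P : K[X], Irreducible P ∧ y < P.natDegree ∧ P ^ 2 ∣ f.eval g}).ncard : ℝ) ≤
        C * ((Fintype.card K : ℝ) ^ n / (Fintype.card K : ℝ) ^ y +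
          (Fintype.card K : ℝ) ^ (n / 2))

/-- The monic `g` of degree `n` such that no `f i (g)` has a prime factor of degree at most `y`. -/
noncomputable def SfP (K : Type) [Field K] [Fintype K] {k : ℕ} (f : Fin k → K[X][X]) (n y : ℕ) :
    Finset K[X] :=
  (Mn K n).filter (fun g => ∀ i, ∀ P : K[X], P.Monic → Irreducible P → P ∣ (f i).eval g →
    y < P.natDegree)

/-- The number of zeros of `F` modulo `P`. -/
noncomputable def om {K : Type} [Field K] (F : K[X][X]) (P : K[X]) : ℕ :=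
  {z : K[X] | z.degree < P.degree ∧ P ∣ F.eval z}.ncard

/-- The system `f` : positive degrees, the product separable, the roots as in `SqR`. -/
def SysP {K : Type} [Field K] {k : ℕ} (f : Fin k → K[X][X]) (μ : K[X]) : Prop :=
  (∀ i, 0 < (f i).natDegree) ∧ ((∏ i, f i).map (algebraMap K[X] (RatFunc K))).Separable ∧
    μ ≠ 0 ∧ ∀ i, SqR (f i) μ

/-- **Task PATP.**  All patterns of parities in the sifted set. -/
def S_patP : Prop :=
  ∀ (K : Type) [Field K] [Fintype K] [CharP K 2] (k : ℕ) (f : Fin k → K[X][X]) (μ : K[X]) (ε : ℝ),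
    SysP f μ → 0 < ε → ∃ κ : ℝ, 0 < κ ∧ ∃ y₀ n₀ : ℕ, ∀ n : ℕ, n₀ ≤ n → ∀ y : ℕ, y₀ ≤ y →
      (y : ℝ) ≤ κ * n → ∀ σ : Fin k → ℤ, (∀ i, σ i = 1 ∨ σ i = -1) →
        |(((SfP K f n y).filter (fun g => ∀ i, mob ((f i).eval g) = σ i)).card : ℝ) -
          (SfP K f n y).card / 2 ^ k| ≤ ε * (SfP K f n y).card

/-- **Task FEWP.**  Almost primes with prescribed parities. -/
def S_fewP : Prop :=
  ∀ (K : Type) [Field K] [Fintype K] [CharP K 2] (k : ℕ) (f : Fin k → K[X][X]) (μ : K[X]),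
    SysP f μ → (∀ P : K[X], P.Monic → Irreducible P → ∃ x : K[X], ¬ P ∣ (∏ i, f i).eval x) →
    ∃ (r : ℕ) (c : ℝ), 0 < c ∧ ∃ n₀ : ℕ, ∀ n : ℕ, n₀ ≤ n →
      ∀ σ : Fin k → ℤ, (∀ i, σ i = 1 ∨ σ i = -1) →
        c * (Fintype.card K : ℝ) ^ n *
          ∏ P ∈ PU K n, (1 - (om (∏ i, f i) P : ℝ) / (Fintype.card K : ℝ) ^ P.natDegree) ≤
          (((Mn K n).filter (fun g => ∀ i, mob ((f i).eval g) = σ i ∧
            Multiset.card (UniqueFactorizationMonoid.factors ((f i).eval g)) ≤ r ∧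
              ∀ P : K[X], Irreducible P → P ∣ (f i).eval g → n ≤ (r + 1) * P.natDegree)).card : ℝ)

end Pool.Agent.H140.PE
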