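import Mathlib
import Pool.Agent.H140.PE.Stm
import Pool.Agent.H140.E.Asm
import Pool.Agent.H233.Par.Fib

/-!
# Parity of polynomial values in sifted sets, `q` even: task FIBE (helper345)

The typical fibre.  Adapted from helper233's `Pool.Agent.H233.Par.Fib` and helper287's
`Pool.Agent.H140.E.Asm`.
-/

set_option autoImplicit false

namespace Pool.Agent.H140.PE

open Polynomial
open scoped Classical
open Pool.Agent.H985.Chow (mob MD)
open Pool.Agent.H985.KP (PA)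
open Pool.Agent.H985.Par (mass Fb S_typV GoodV)
open Pool.Agent.H140.Q (mobM)
open Pool.Agent.H140.E (PhE SepE S_win5E)
open Pool.Agent.H140.E.AsmE (SS SS_ne SS_N SS_m SS_t)
open Pool.Agent.H985.Chow.Asm
open Pool.Agent.H604.FC.Asm4 (omega_bound tend lead_eq)
open Pool.Agent.H233.Par (gdP badP badP_card ExcP Exc_card Fb_add mass_union mass_dvd mass_mono
  cop_of not_dvd_of_cop mem_of_G natDegree_of_mem G_monic deg_le_of_Fb fin_num)

namespace FibE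

section bound

variable {K : Type} [Field K] [Fintype K] [CharP K 2]

/-- the window bound for given data -/
def W5E {r : ℕ} (cp : Fin r → K[X][X]) (N : Fin r → K[X]) (μ₀ : ℕ) (M : ℝ) (c₀ : ℕ) : Prop :=
  ∀ (n L D T : ℕ) (c : K) (a E : K[X]) (e h' h'' s m : Fin r → K[X]) (j₀ : Fin r)
    (χ : AddChar K[X] ℝ),
    c ≠ 0 → E ≠ 0 → 1 ≤ L →
    (∀ j, (e j).Monic ∧ (h' j).Monic ∧ (h'' j).Monic ∧ (m j).Monic ∧ (m j).natDegree ≤ μ₀ ∧
      IsCoprime (e j) (h' j * h'' j) ∧ Squarefree (h' j * h'' j) ∧ IsCoprime E (h' j * h'' j) ∧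
      (e j * N j ^ 2 * m j) ^ 5 ∣ E ∧ (h' j).natDegree + D ≤ L ∧ (h'' j).natDegree + D ≤ L ∧
      n + 2 * (E.natDegree + (L - 1)) + c₀ ≤ 4 * (e j * (h' j * h'' j)).natDegree) →
    2 * (E.natDegree + (L - 1)) + c₀ ≤ n →
    (∀ i j, i ≠ j → IsCoprime (h' i * h'' i) (h' j * h'' j)) →
    (∀ j, ((a + s j) ^ 2 + X * (C c * (e j * (h' j * h'' j))) ^ 2).Monic ∧
      ((a + s j) ^ 2 + X * (C c * (e j * (h' j * h'' j))) ^ 2).natDegree = n) →
    L ≤ 2 * (h'' j₀).natDegree → (6 * r + 3) * T ≤ D →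
    |∑ᶠ x ∈ {x : K[X] | x.degree < (L : WithBot ℕ)}, χ x * ∏ j,
        (mobM (m j) (N j) ((PhE (cp j)).eval ((a + s j + E * x) ^ 2 +
          X * (C c * (e j * (h' j * h'' j))) ^ 2)) : ℝ)| ^ (2 ^ (6 * r + 1)) ≤
      M ^ (∑ j, (PA (h' j * h'' j)).ncard) * (Fintype.card K : ℝ) ^ (L * 2 ^ (6 * r + 1)) /
        (Fintype.card K : ℝ) ^ T

omit [Fintype K] [CharP K 2] in
/-- a monic multiple -/
lemma monic_mult (F : K[X]) (hF : F ≠ 0) : (C F.leadingCoeff⁻¹ * F).Monic ∧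
    F ∣ C F.leadingCoeff⁻¹ * F ∧ C F.leadingCoeff⁻¹ * F ∣ F ∧
    (C F.leadingCoeff⁻¹ * F).natDegree = F.natDegree := by
  have hlc : F.leadingCoeff ≠ 0 := leadingCoeff_ne_zero.2 hF
  refine ⟨monic_C_mul_of_mul_leadingCoeff_eq_one (inv_mul_cancel₀ hlc), dvd_mul_left _ _, ?_,
    natDegree_C_mul (inv_ne_zero hlc)⟩
  have hu : IsUnit (C F.leadingCoeff⁻¹ : K[X]) :=
    isUnit_C.2 (isUnit_iff_ne_zero.2 (inv_ne_zero hlc))
  exact (hu.mul_left_dvd).2 dvd_rfl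

lemma local_boundE {r : ℕ} (cp : Fin r → K[X][X]) (Nn m s t : Fin r → K[X]) {μ₀ c₀ B : ℕ}
    {Mw : ℝ} (hW : W5E cp Nn μ₀ Mw c₀) (hr : 0 < r) (hN : ∀ j, Nn j ≠ 0)
    (hm : ∀ j, (m j).Monic) (hμ : ∀ j, (m j).natDegree ≤ μ₀)
    (hB : B = ∑ i, 5 * (2 * (Nn i).natDegree + (m i).natDegree)) (ht : Function.Injective t)
    (δ κ κ₁ : ℝ) (hδ : 0 < δ) (hκ : 0 < κ) (hκ22 : κ ≤ 1 / 22) (hκδ : κ ≤ δ / 44)
    (hκ₁ : 0 ≤ κ₁) (hκ₁δ : κ₁ ≤ δ) (n D₀ : ℕ) (hn : 1 ≤ n) (hD₀ : (1 / 2 - κ / 8) * n ≤ D₀)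
    (hc₀ : 2 * (c₀ : ℝ) ≤ κ * n) (htd : ∀ i, (t i).natDegree < D₀)
    (hst : ∀ i, (s i ^ 2 + X * t i ^ 2).natDegree < n)
    (R : Set K[X]) (b : K[X]) (hb : b ∈ Fb K n)
    (hgood : ∀ l, gdP (GoodV (R ∪ {P | P ∣ SS Nn m t 1}) δ κ₁) D₀ (b + t l)) :
    ∃ E : K[X], E.Monic ∧ (E.natDegree : ℝ) ≤ r * (5 * (κ₁ * (n / 2))) + B ∧
      (∀ P ∈ R, P.Monic → Irreducible P → (∃ i, P ∣ b + t i) → P ∣ E) ∧
      ∀ (M : K[X]) (L : ℕ) (a : K[X]) (χ : AddChar K[X] ℝ),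
        M ≠ 0 → E ∣ M → (M.natDegree : ℝ) ≤ 4 * κ * n →
        (∀ P : K[X], P.Monic → Irreducible P → P ∣ M → P ∣ E ∨ ∀ i, ¬ P ∣ b + t i) →
        (a ^ 2 + X * b ^ 2).Monic → (a ^ 2 + X * b ^ 2).natDegree = n →
        (1 - 3 * κ) * n ≤ 2 * ((M.natDegree : ℝ) + L) →
        2 * ((M.natDegree : ℝ) + L) ≤ (1 - κ) * n →
        ∃ H : Fin r → K[X], (∀ l, H l ≠ 0 ∧ (H l).natDegree ≤ n) ∧
        |∑ᶠ x ∈ {x : K[X] | x.degree < (L : WithBot ℕ)}, χ x * ∏ i,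
          (mobM (m i) (Nn i) ((PhE (cp i)).eval ((a + s i + M * x) ^ 2 +
            X * (b + t i) ^ 2)) : ℝ)| ^ (2 ^ (6 * r + 1)) ≤
          Mw ^ (∑ l, (PA (H l)).ncard) * (Fintype.card K : ℝ) ^ (L * 2 ^ (6 * r + 1)) /
            (Fintype.card K : ℝ) ^ (⌊δ * n / 4⌋₊ / (6 * r + 3)) := by
  choose c b₁ hc hbb hb1 hDd hg using hgood
  choose e h₁ h₂ hbe he hh₁ hh₂ heh hsq hRh hκe hδ1 hδ2 using hg
  obtain ⟨l₀⟩ : Nonempty (Fin r) := ⟨⟨0, hr⟩⟩
  have hτm : ∀ l, t l ∈ degreeLT K (n / 2) := fun l => (mem_of_G (hst l)).2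
  have hcl : ∀ l, c l = c l₀ := by
    intro l
    exact (lead_eq (p := b) (t := t l) (t' := t l₀) (hc l) (hc l₀) (hbb l) (hbb l₀) (hb1 l)
      (hb1 l₀) D₀ (htd l) (htd l₀) (hDd l) (hDd l₀)).2
  have hdn : ∀ l, 2 * (b₁ l).natDegree + 1 ≤ n := fun l =>
    deg_le_of_Fb (Fb_add n hb (hτm l)) (hc l) (hbb l) (hb1 l)
  have hB' : ∀ l, C (c l₀) * (e l * (h₁ l * h₂ l)) = b + t l := by
    intro l
    rw [hbb l, ← hbe l, hcl l]
  have hh12 : ∀ l, (h₁ l * h₂ l).Monic := fun l => (hh₁ l).mul (hh₂ l)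
  have hdeh : ∀ l, (e l * (h₁ l * h₂ l)).natDegree = (b₁ l).natDegree := fun l => by rw [← hbe]
  have hdd : ∀ l, (e l).natDegree + ((h₁ l).natDegree + (h₂ l).natDegree) =
      (b₁ l).natDegree := by
    intro l
    rw [← hdeh l, (he l).natDegree_mul (hh12 l), (hh₁ l).natDegree_mul (hh₂ l)]
  have hdvdB : ∀ l (P : K[X]), P ∣ h₁ l * h₂ l → P ∣ b + t l := by
    intro l P hP
    rw [← hB' l]
    exact ((hP.mul_left _).mul_left _)
  have hedvdB : ∀ l (P : K[X]), P ∣ e l → P ∣ b + t l := by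
    intro l P hP
    rw [← hB' l]
    exact ((hP.mul_right _).mul_left _)
  -- a prime divides at most one class and a divisor
  have hcross : ∀ l l' (P : K[X]), P.Monic → Irreducible P → l ≠ l' → P ∣ b + t l' →
      ¬ P ∣ h₁ l * h₂ l := by
    intro l l' P hPm hPi hll h1 h2
    refine hRh l P (Or.inr ?_) hPm hPi h2
    have h3 := hdvdB l P h2
    have h4 : P ∣ t l - t l' := by
      have h5 := dvd_sub h3 h1
      have h6 : b + t l - (b + t l') = t l - t l' := by ring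
      rwa [h6] at h5
    exact h4.trans (SS_t Nn m t 1 l l' (fun h => hll (ht h)))
  -- the modulus
  obtain ⟨E', hE'⟩ : ∃ E', E' = ∏ l, (e l * Nn l ^ 2 * m l) ^ 5 := ⟨_, rfl⟩
  have hE'0 : E' ≠ 0 := by
    rw [hE']
    exact Finset.prod_ne_zero_iff.2 (fun l _ => pow_ne_zero 5 (mul_ne_zero (mul_ne_zero
      (he l).ne_zero (pow_ne_zero 2 (hN l))) (hm l).ne_zero))
  obtain ⟨hEm, hEd1, hEd2, hEdeg⟩ := monic_mult E' hE'0
  have hdvdE : ∀ l, (e l * Nn l ^ 2 * m l) ^ 5 ∣ C E'.leadingCoeff⁻¹ * E' := by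
    intro l
    refine dvd_trans ?_ hEd1
    rw [hE']
    exact Finset.dvd_prod_of_mem (fun l => (e l * Nn l ^ 2 * m l) ^ 5) (Finset.mem_univ l)
  refine ⟨C E'.leadingCoeff⁻¹ * E', hEm, ?_, ?_, ?_⟩
  · rw [hEdeg]
    have h0 : E'.natDegree ≤ ∑ l, (5 * (e l).natDegree +
        5 * (2 * (Nn l).natDegree + (m l).natDegree)) := by
      rw [hE']
      refine (natDegree_prod_le _ _).trans (Finset.sum_le_sum (fun l _ => ?_))
      rw [natDegree_pow]
      have h2 : (e l * Nn l ^ 2 * m l).natDegree ≤ (e l).natDegree + 2 * (Nn l).natDegree +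
          (m l).natDegree := by
        refine natDegree_mul_le.trans (Nat.add_le_add_right (natDegree_mul_le.trans ?_) _)
        rw [natDegree_pow]
      omega
    have h0' : (E'.natDegree : ℝ) ≤ ∑ l, (5 * ((e l).natDegree : ℝ)) + B := by
      rw [Finset.sum_add_distrib, ← hB] at h0
      exact_mod_cast h0
    refine h0'.trans (add_le_add_left ?_ _)
    calc ∑ l : Fin r, (5 * ((e l).natDegree : ℝ)) ≤ ∑ _l : Fin r, (5 * (κ₁ * (n / 2)) : ℝ) := by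
          apply Finset.sum_le_sum
          intro l _
          have h1 := hκe l
          have h2 : (2 * ((b₁ l).natDegree : ℝ) + 1) ≤ n := by exact_mod_cast hdn l
          have h3 : κ₁ * ((b₁ l).natDegree : ℝ) ≤ κ₁ * (n / 2) :=
            mul_le_mul_of_nonneg_left (by linarith) hκ₁
          linarith
      _ = _ := by
          rw [Finset.sum_const, Finset.card_univ, Fintype.card_fin, nsmul_eq_mul]
  · rintro P hPR hPm hPi ⟨i, hPb⟩
    rw [← hB'] at hPb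
    rcases hPi.prime.dvd_or_dvd hPb with h1 | h1
    · have hu : IsUnit (C (c l₀) : K[X]) := isUnit_C.2 (isUnit_iff_ne_zero.2 (hc _))
      exact absurd (isUnit_of_dvd_unit h1 hu) hPi.not_isUnit
    · rcases hPi.prime.dvd_or_dvd h1 with h2 | h2
      · exact (dvd_pow ((h2.mul_right _).mul_right _) (by norm_num)).trans (hdvdE i)
      · exact absurd h2 (hRh _ P (Or.inl hPR) hPm hPi)
  · intro M L a χ hM0 hEM hMd hMP hmon hdeg hL1 hL2
    refine ⟨fun l => h₁ l * h₂ l, fun l => ⟨(hh12 l).ne_zero, ?_⟩, ?_⟩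
    · have h1 := hdd l
      have h2 := hdn l
      rw [(hh₁ l).natDegree_mul (hh₂ l)]
      omega
    have hMcop : ∀ l, IsCoprime M (h₁ l * h₂ l) := by
      intro l
      refine cop_of (fun h => hM0 h.1) ?_
      intro P hPm hPi h1 h2
      rcases hMP P hPm hPi h1 with h3 | h3
      · have h3' := h3.trans hEd2
        rw [hE'] at h3'
        obtain ⟨l', -, h4⟩ := hPi.prime.exists_mem_finset_dvd h3'
        have h5 : P ∣ e l' * Nn l' ^ 2 * m l' := hPi.prime.dvd_of_dvd_pow h4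
        rcases hPi.prime.dvd_or_dvd h5 with h6 | h6
        · rcases hPi.prime.dvd_or_dvd h6 with h7 | h7
          · by_cases hll : l = l'
            · rw [← hll] at h7
              exact not_dvd_of_cop (heh l) hPi h7 h2
            · exact hcross l l' P hPm hPi hll (hedvdB l' P h7) h2
          · exact hRh l P (Or.inr ((hPi.prime.dvd_of_dvd_pow h7).trans (SS_N Nn m t 1 l')))
              hPm hPi h2
        · exact hRh l P (Or.inr (h6.trans (SS_m Nn m t 1 l'))) hPm hPi h2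
      · exact h3 l (hdvdB _ P h2)
    have hhcop : ∀ l l', l ≠ l' → IsCoprime (h₁ l * h₂ l) (h₁ l' * h₂ l') := by
      intro l l' hll
      refine cop_of (fun h => (hh12 l).ne_zero h.1) ?_
      intro P hPm hPi h1 h2
      exact hcross l l' P hPm hPi hll (hdvdB l' P h2) h1
    -- the numerical conditions
    have hn0 : (0 : ℝ) < n := by exact_mod_cast hn
    have hD1 : ((⌊δ * n / 4⌋₊ : ℕ) : ℝ) ≤ δ * n / 4 := Nat.floor_le (by positivity)
    have hL : (n : ℝ) / 2 - 11 / 2 * (κ * n) ≤ L := by linarith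
    have hκn : κ * n ≤ 1 / 22 * n := mul_le_mul_of_nonneg_right hκ22 hn0.le
    have hκδn : κ * n ≤ δ / 44 * n := mul_le_mul_of_nonneg_right hκδ hn0.le
    have hδn : 0 < δ * n := by positivity
    have hd1 : ∀ l, (n : ℝ) / 2 - κ * n / 8 ≤ (b₁ l).natDegree := by
      intro l
      have : (D₀ : ℝ) ≤ (b₁ l).natDegree := by exact_mod_cast hDd l
      linarith
    have hd2 : ∀ l, 2 * ((b₁ l).natDegree : ℝ) + 1 ≤ n := fun l => by exact_mod_cast hdn l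
    have hdd' : ∀ l, ((e l).natDegree : ℝ) + ((h₁ l).natDegree + (h₂ l).natDegree) =
        (b₁ l).natDegree := fun l => by exact_mod_cast hdd l
    have hδd : ∀ l, δ * n * (1 / 2 - 1 / 176) ≤ δ * (b₁ l).natDegree := by
      intro l
      have h1 : (n : ℝ) * (1 / 2 - 1 / 176) ≤ (b₁ l).natDegree := by
        have := hd1 l
        linarith
      calc δ * n * (1 / 2 - 1 / 176) = δ * (n * (1 / 2 - 1 / 176)) := by ring
        _ ≤ _ := mul_le_mul_of_nonneg_left h1 hδ.le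
    have hLpos : 1 ≤ L := by
      have h1 : (0 : ℝ) < L := by linarith
      have h2 : 0 < L := by exact_mod_cast h1
      omega
    have hc1 : ∀ l, (h₁ l).natDegree + ⌊δ * n / 4⌋₊ ≤ L := by
      intro l
      have h1 : ((h₁ l).natDegree : ℝ) + (⌊δ * n / 4⌋₊ : ℕ) ≤ L := by
        have h2 := hδ2 l
        have h3 := hδd l
        have h4 := hd2 l
        have h5 : (1 / 2 - δ) * ((b₁ l).natDegree : ℝ) =
          (b₁ l).natDegree / 2 - δ * (b₁ l).natDegree := by ring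
        rw [h5] at h2
        linarith
      exact_mod_cast h1
    have hc2 : ∀ l, (h₂ l).natDegree + ⌊δ * n / 4⌋₊ ≤ L := by
      intro l
      have h1 : ((h₂ l).natDegree : ℝ) + (⌊δ * n / 4⌋₊ : ℕ) ≤ L := by
        have h2 := hδ1 l
        have h3 := hδd l
        have h4 := hd2 l
        have h5 := hdd' l
        have h6 : (0 : ℝ) ≤ (e l).natDegree := Nat.cast_nonneg _
        linarith
      exact_mod_cast h1
    have hc3 : ∀ l, L ≤ 2 * (h₂ l).natDegree := by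
      intro l
      have h1 : (L : ℝ) ≤ 2 * (h₂ l).natDegree := by
        have h2 := hδ2 l
        have h3 := hκe l
        have h4 := hd1 l
        have h5 := hdd' l
        have h6 : κ₁ * ((b₁ l).natDegree : ℝ) ≤ δ * (b₁ l).natDegree :=
          mul_le_mul_of_nonneg_right hκ₁δ (Nat.cast_nonneg _)
        have h7 : (1 / 2 - δ) * ((b₁ l).natDegree : ℝ) =
          (b₁ l).natDegree / 2 - δ * (b₁ l).natDegree := by ring
        rw [h7] at h2
        have h8 : (0 : ℝ) ≤ M.natDegree := Nat.cast_nonneg _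
        have h9 : 0 < κ * n := by positivity
        linarith
      exact_mod_cast h1
    have hκn0 : 0 ≤ κ * n := by positivity
    have hc4 : ∀ l, n + 2 * (M.natDegree + (L - 1)) + c₀ ≤
        4 * (e l * (h₁ l * h₂ l)).natDegree := by
      intro l
      rw [hdeh l]
      have h1 : n + 2 * (M.natDegree + L) + c₀ ≤ 4 * (b₁ l).natDegree := by
        have h2 : (n : ℝ) + 2 * ((M.natDegree : ℝ) + L) + c₀ ≤ 4 * (b₁ l).natDegree := by
          have := hd1 l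
          linarith
        exact_mod_cast h2
      omega
    have hc5 : 2 * (M.natDegree + (L - 1)) + c₀ ≤ n := by
      have h1 : 2 * (M.natDegree + L) + c₀ ≤ n := by
        have h2 : 2 * ((M.natDegree : ℝ) + L) + c₀ ≤ n := by
          linarith
        exact_mod_cast h2
      omega
    have hwm := hW n L ⌊δ * n / 4⌋₊ (⌊δ * n / 4⌋₊ / (6 * r + 3)) (c l₀) a M e h₁ h₂ s m l₀ χ
      (hc l₀) hM0 hLpos
      (fun l => ⟨he l, hh₁ l, hh₂ l, hm l, hμ l, heh l, hsq l, hMcop l, (hdvdE l).trans hEM,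
        hc1 l, hc2 l, hc4 l⟩) hc5 hhcop
      (fun i => by
        rw [hB']
        exact G_monic hmon hdeg (hst i)) (hc3 l₀) (Nat.mul_div_le _ _)
    simp only [hB'] at hwm
    exact hwm

end bound

end FibE

open FibE

/-- **Task FIBE.** -/
theorem fibE (hwin : S_win5E) (htyp : S_typV) : S_fibE := by
  intro K _ _ _ r cp u₀ v₀ Nn m s t ε hr hsep hm ht hε
  obtain ⟨q, hqdef⟩ : ∃ q : ℝ, q = Fintype.card K := ⟨_, rfl⟩
  have hq1 : (1 : ℝ) < q := by rw [hqdef]; exact_mod_cast Fintype.one_lt_card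
  have hq0 : (0 : ℝ) < q := by linarith
  have hr0 : (0 : ℝ) < r := by exact_mod_cast hr
  have hN : ∀ j, Nn j ≠ 0 := fun j => (hsep j).2.2.1
  -- the constants of the window bound
  obtain ⟨μ₀, hμ₀⟩ : ∃ μ₀ : ℕ, ∀ i, (m i).natDegree ≤ μ₀ :=
    ⟨∑ i, (m i).natDegree, fun i => Finset.single_le_sum
      (f := fun i => (m i).natDegree) (fun _ _ => Nat.zero_le _) (Finset.mem_univ i)⟩
  obtain ⟨M0, c₀, hM01, hW⟩ := hwin K r cp u₀ v₀ Nn μ₀ hsep
  obtain ⟨B, hB⟩ : ∃ B : ℕ, B = ∑ i, 5 * (2 * (Nn i).natDegree + (m i).natDegree) := ⟨_, rfl⟩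
  obtain ⟨Td, hTd⟩ : ∃ Td : ℕ, ∀ l, (t l).natDegree ≤ Td :=
    ⟨∑ i, (t i).natDegree, fun i => Finset.single_le_sum
      (f := fun i => (t i).natDegree) (fun _ _ => Nat.zero_le _) (Finset.mem_univ i)⟩
  obtain ⟨Gd, hGd⟩ : ∃ Gd : ℕ, ∀ l, (s l ^ 2 + X * t l ^ 2).natDegree ≤ Gd :=
    ⟨∑ i, (s i ^ 2 + X * t i ^ 2).natDegree, fun i => Finset.single_le_sum
      (f := fun i => (s i ^ 2 + X * t i ^ 2).natDegree) (fun _ _ => Nat.zero_le _)
      (Finset.mem_univ i)⟩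
  obtain ⟨ε', hε'⟩ : ∃ ε' : ℝ, ε' = ε / (2 * r) := ⟨_, rfl⟩
  have hε'0 : 0 < ε' := by rw [hε']; positivity
  have hkε : r * (2 * ε') = ε := by
    rw [hε']
    field_simp
  obtain ⟨δ, hδ, htyp'⟩ := htyp K ε' hε'0
  obtain ⟨κ, hκ⟩ : ∃ κ : ℝ, κ = min (1 / 22) (δ / 44) := ⟨_, rfl⟩
  have hκ0 : 0 < κ := by rw [hκ]; exact lt_min (by norm_num) (by positivity)
  have hκ22 : κ ≤ 1 / 22 := by rw [hκ]; exact min_le_left _ _
  have hκδ : κ ≤ δ / 44 := by rw [hκ]; exact min_le_right _ _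
  obtain ⟨κ₁, hκ₁⟩ : ∃ κ₁ : ℝ, κ₁ = κ / (3 * r) := ⟨_, rfl⟩
  have hκ₁0 : 0 < κ₁ := by rw [hκ₁]; positivity
  have hkκ₁ : r * κ₁ = κ / 3 := by
    rw [hκ₁]
    field_simp
  have hκ₁κ : κ₁ ≤ κ := by
    have h1 : κ₁ ≤ r * κ₁ := by
      have : (1 : ℝ) ≤ r := by exact_mod_cast hr
      nlinarith
    linarith
  have hκ₁δ : κ₁ ≤ δ := by linarith
  obtain ⟨θ₁, hθ₁, d₀, hd₀⟩ := htyp' κ₁ hκ₁0
  obtain ⟨j, hj⟩ := exists_pow_lt_of_lt_one hε'0
    (show 1 / (Fintype.card K : ℝ) < 1 by rw [← hqdef, div_lt_one hq0]; exact hq1)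
  obtain ⟨κ₂, hκ₂⟩ : ∃ κ₂ : ℝ, κ₂ = δ / (4 * (6 * r + 3)) := ⟨_, rfl⟩
  have hκ₂0 : 0 < κ₂ := by rw [hκ₂]; positivity
  obtain ⟨A, hA1, hA⟩ := omega_bound K M0 hM01 (q ^ (κ₂ / 2 / r))
    (Real.one_lt_rpow hq1 (by positivity))
  obtain ⟨m1, hm1⟩ := tend (A ^ r * q) (q ^ (-(κ₂ / 4))) 1 (by positivity)
    (Real.rpow_lt_one_of_one_lt_of_neg hq1 (by linarith)) one_pos
  obtain ⟨m2, hm2⟩ := exists_nat_gt (8 * (1 + j) / κ)
  have hSS0 : SS Nn m t 1 ≠ 0 := SS_ne Nn m t 1 hN hm one_ne_zero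
  obtain ⟨Ms, hMs⟩ : ∃ Ms : ℝ, Ms = (SS Nn m t 1).natDegree := ⟨_, rfl⟩
  obtain ⟨m3, hm3⟩ := exists_nat_gt (16 * Ms / θ₁)
  obtain ⟨m4, hm4⟩ := exists_nat_gt ((2 * c₀ + 6 * B) / κ)
  refine ⟨κ, θ₁ / 16, κ₂ / (4 * 2 ^ (6 * r + 1)), hκ0, by linarith, by positivity, by positivity,
    m1 + m2 + m3 + m4 + 4 * d₀ + 4 * Td + Gd + 5, ?_⟩
  intro n hn R hmass
  have hn1 : 1 ≤ n := by omega
  have hn0 : (0 : ℝ) < n := by exact_mod_cast hn1
  have hdst : ∀ i, (s i ^ 2 + X * t i ^ 2).natDegree < n := by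
    intro i
    have := hGd i
    omega
  have hτm : ∀ l, t l ∈ degreeLT K (n / 2) := fun l => (mem_of_G (hdst l)).2
  -- the lower bound for the degrees
  obtain ⟨D₀, hD₀⟩ : ∃ D₀ : ℕ, D₀ = ⌈(1 / 2 - κ / 8) * (n : ℝ)⌉₊ := ⟨_, rfl⟩
  have hD1 : (1 / 2 - κ / 8) * (n : ℝ) ≤ D₀ := by
    rw [hD₀]
    exact Nat.le_ceil _
  have hD2 : (D₀ : ℝ) < (1 / 2 - κ / 8) * (n : ℝ) + 1 := by
    rw [hD₀]
    apply Nat.ceil_lt_add_one
    apply mul_nonneg _ hn0.le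
    linarith
  have hκn : κ * n ≤ 1 / 22 * n := mul_le_mul_of_nonneg_right hκ22 hn0.le
  have hDn : (n : ℝ) / 4 ≤ D₀ := by linarith
  have hm2' : 8 * (1 + (j : ℝ)) ≤ κ * n := by
    have h1 : (m2 : ℝ) ≤ n := by exact_mod_cast (by omega : m2 ≤ n)
    have h2 : 8 * (1 + (j : ℝ)) / κ ≤ n := hm2.le.trans h1
    rw [div_le_iff₀ hκ0] at h2
    linarith
  have hDj : D₀ + j ≤ n / 2 := by
    rw [Nat.le_div_iff_mul_le (by norm_num)]
    have h1 : ((D₀ : ℝ) + j) * 2 ≤ n := by linarith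
    exact_mod_cast h1
  have hm3' : Ms ≤ θ₁ / 16 * n := by
    have h1 : (m3 : ℝ) ≤ n := by exact_mod_cast (by omega : m3 ≤ n)
    have h2 : 16 * Ms / θ₁ ≤ n := hm3.le.trans h1
    rw [div_le_iff₀ hθ₁] at h2
    linarith
  have hm4' : 2 * (c₀ : ℝ) + 6 * B ≤ κ * n := by
    have h1 : (m4 : ℝ) ≤ n := by exact_mod_cast (by omega : m4 ≤ n)
    have h2 : (2 * (c₀ : ℝ) + 6 * B) / κ ≤ n := hm4.le.trans h1
    rw [div_le_iff₀ hκ0] at h2
    linarith
  have htd : ∀ i, (t i).natDegree < D₀ := by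
    intro i
    have h1 : ((Td : ℝ) + 1) ≤ D₀ := by
      have h2 : (4 * (Td : ℝ) + 4) ≤ n := by exact_mod_cast (by omega : 4 * Td + 4 ≤ n)
      linarith
    have h2 : Td + 1 ≤ D₀ := by exact_mod_cast h1
    have := hTd i
    omega
  -- the enlarged set of primes
  obtain ⟨R0, hR0⟩ : ∃ R0 : Set K[X], R0 = R ∪ {P | P ∣ SS Nn m t 1} := ⟨_, rfl⟩
  have hmass0 : mass R0 n ≤ 3 * (θ₁ / 16 * n) := by
    rw [hR0]
    refine (mass_union _ _ _).trans ?_
    have h1 := mass_dvd (SS Nn m t 1) hSS0 n 0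
    have h2 : mass {P : K[X] | P ∣ SS Nn m t 1} n ≤ Ms := by
      refine h1.trans (le_of_eq ?_)
      rw [hMs]
      simp
    have h3 : 0 ≤ θ₁ / 16 * n := by positivity
    linarith
  -- the exceptional set
  refine ⟨ExcP t (GoodV R0 δ κ₁) D₀ n, fun b hb => hb.1, ?_, ?_⟩
  · have h1 := Exc_card t (GoodV R0 δ κ₁) D₀ n hτm
    have h2 := badP_card (K := K) (GoodV R0 δ κ₁) D₀ j n ε' hε'0 hj.le (fun d hd1 hd2 => by
      apply hd₀ d
      · have h3 : (d₀ : ℝ) ≤ D₀ := by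
          have h4 : (4 * (d₀ : ℝ)) ≤ n := by exact_mod_cast (by omega : 4 * d₀ ≤ n)
          linarith
        have h5 : d₀ ≤ D₀ := by exact_mod_cast h3
        exact h5.trans hd1
      · refine (mass_mono R0 (by omega : d ≤ n)).trans (hmass0.trans ?_)
        have h3 : (D₀ : ℝ) ≤ d := by exact_mod_cast hd1
        have h4 : 3 * ((n : ℝ) / 16) ≤ d := by linarith
        calc 3 * (θ₁ / 16 * n) = θ₁ * (3 * (n / 16)) := by ring
          _ ≤ θ₁ * d := mul_le_mul_of_nonneg_left h4 hθ₁.le) hDj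
    have h3 : ((ExcP t (GoodV R0 δ κ₁) D₀ n).ncard : ℝ) ≤
        r * ((badP (K := K) (GoodV R0 δ κ₁) D₀ n).card : ℝ) := by exact_mod_cast h1
    calc ((ExcP t (GoodV R0 δ κ₁) D₀ n).ncard : ℝ)
        ≤ r * ((badP (K := K) (GoodV R0 δ κ₁) D₀ n).card : ℝ) := h3
      _ ≤ r * (2 * ε' * (Fintype.card K : ℝ) ^ (n / 2)) :=
          mul_le_mul_of_nonneg_left h2 hr0.le
      _ = (r * (2 * ε')) * (Fintype.card K : ℝ) ^ (n / 2) := by ring
      _ = ε * (Fintype.card K : ℝ) ^ (n / 2) := by rw [hkε]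
  · intro b hb hbe
    have hgood : ∀ l, gdP (GoodV (R ∪ {P | P ∣ SS Nn m t 1}) δ κ₁) D₀ (b + t l) := by
      intro l
      by_contra hl
      rw [← hR0] at hl
      exact hbe ⟨hb, l, hl⟩
    obtain ⟨E, hEm, hEd, hER, hmain⟩ := local_boundE cp Nn m s t hW hr hN hm hμ₀ hB ht
      δ κ κ₁ hδ hκ0 hκ22 hκδ hκ₁0.le hκ₁δ n D₀ hn1 hD1
      (by have : (0 : ℝ) ≤ B := Nat.cast_nonneg _
          linarith) htd hdst R b hb hgood
    refine ⟨E, hEm, ?_, hER, ?_⟩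
    · calc (E.natDegree : ℝ) ≤ r * (5 * (κ₁ * (n / 2))) + B := hEd
        _ = (r * κ₁) * (5 / 2 * n) + B := by ring
        _ = (κ / 3) * (5 / 2 * n) + B := by rw [hkκ₁]
        _ ≤ κ * n := by
            have h1 : (0 : ℝ) ≤ c₀ := Nat.cast_nonneg _
            linarith
    · intro M L a χ hM hEM hMd hMP hmon hdeg hL1 hL2
      obtain ⟨H, hH, hbound⟩ := hmain M L a χ hM hEM hMd hMP hmon hdeg hL1 hL2
      rw [← hqdef] at hbound ⊢
      refine fin_num hq1 le_rfl hκ₂0 hA1 (abs_nonneg _) ?_ ?_ (hm1 n (by omega)) rfl hbound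
      · -- the bound for `T`
        have h1 : ⌊δ * n / 4⌋₊ + 1 ≤ (6 * r + 3) * (⌊δ * n / 4⌋₊ / (6 * r + 3) + 1) :=
          Nat.lt_mul_div_succ _ (by omega)
        have h2 : δ * n / 4 < (⌊δ * n / 4⌋₊ : ℝ) + 1 := Nat.lt_floor_add_one _
        have h3 : ((⌊δ * n / 4⌋₊ : ℕ) : ℝ) + 1 ≤
            (6 * r + 3) * (((⌊δ * n / 4⌋₊ / (6 * r + 3) : ℕ) : ℝ) + 1) := by exact_mod_cast h1
        rw [hκ₂, div_mul_eq_mul_div, div_le_iff₀ (by positivity)]
        linarith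
      · -- the number of primes
        have hη1 : (1 : ℝ) ≤ q ^ (κ₂ / 2 / r) := Real.one_le_rpow hq1.le (by positivity)
        calc M0 ^ (∑ l, (PA (H l)).ncard) = ∏ l, M0 ^ (PA (H l)).ncard := by
              rw [Finset.prod_pow_eq_pow_sum]
          _ ≤ ∏ _l : Fin r, (A * (q ^ (κ₂ / 2 / r)) ^ n) := by
              apply Finset.prod_le_prod
              · intro l _
                have : 0 ≤ M0 := by linarith
                positivity
              · intro l _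
                exact hA (H l) (hH l).1 n (hH l).2
          _ = (A * (q ^ (κ₂ / 2 / r)) ^ n) ^ r := by
              rw [Finset.prod_const, Finset.card_univ, Fintype.card_fin]
          _ = A ^ r * (q ^ (κ₂ / 2)) ^ n := by
              rw [mul_pow, ← pow_mul, mul_comm n r, pow_mul,
                ← Real.rpow_natCast (q ^ (κ₂ / 2 / r)) r, ← Real.rpow_mul hq0.le,
                div_mul_cancel₀ _ hr0.ne']

end Pool.Agent.H140.PE
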