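import Pool.Agent.H140.PE.Stm
import Pool.Agent.H721.Par.ParG
import Pool.Agent.H996.Par.Low

/-!
# The sieve in a residue class (task LOWB of helper140, proved by helper800)
-/

set_option autoImplicit false

namespace Pool.Agent.H140.PE

open Polynomial
open scoped Classical
open Pool.Agent.H985.Par (mass Fb S_sw S_typV)
open Pool.Agent.H694.Typ (Mn mem_Mn card_Mn PU mem_PU)
open Pool.Agent.H225.Par (Sd vf lf Om ind sw1 Om_card_le Om_card_lt)

theorem lowB_vf {K : Type} [Field K] [Fintype K] (D : ℕ) (Q : K[X]) (y : ℕ) (hy : 1 ≤ y)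
    (Ps : Finset K[X]) (β : K[X] → Fin D → K[X]) (h : SieveB y Q Ps β) :
    Real.exp (-((D : ℝ) + (8 * (D : ℝ) ^ 3 + 2 * (D : ℝ) ^ 2))) / (y : ℝ) ^ D ≤ vf Ps β := by
  have hsub : Ps ⊆ PU K y := by
    intro P hP
    obtain ⟨h1, h2, h3, -⟩ := h.1 P hP
    exact mem_PU.2 ⟨h1, h2, h3⟩
  have h1 := Pool.Agent.H996.Par.prod_ge (K := K) D y hy
    (fun P => if P ∈ Ps then (Om (β P) P).card else 0) (fun P hP => by
      split_ifs with hPs
      · exact ⟨Om_card_le _ _, Om_card_lt _ (h.1 P hPs).1 (h.2 P hPs)⟩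
      · refine ⟨Nat.zero_le _, ?_⟩
        have : 0 < Fintype.card K := Fintype.card_pos
        positivity)
  refine h1.trans (le_of_eq ?_)
  rw [← Finset.prod_subset hsub]
  · unfold vf
    refine Finset.prod_congr rfl fun P hP => ?_
    rw [if_pos hP]
    rfl
  · intro P _ hP
    rw [if_neg hP]
    simp

theorem lowB_card {K : Type} [Field K] [Fintype K] {D : ℕ} (n : ℕ) (Q ρ : K[X])
    (Ps : Finset K[X]) (β : K[X] → Fin D → K[X]) :
    ((SfB K n Q ρ Ps β).card : ℝ) =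
      ∑ f ∈ Mn K n, (if Q ∣ f - ρ then ind Ps β f else 0) := by
  unfold SfB
  rw [Finset.card_filter]
  push_cast
  refine Finset.sum_congr rfl fun f _ => ?_
  unfold ind
  by_cases h1 : Q ∣ f - ρ
  · by_cases h2 : Sd Ps β f
    · rw [if_pos ⟨h1, h2⟩, if_pos h1, if_pos h2]
    · rw [if_neg (fun h => h2 h.2), if_pos h1, if_neg h2]
  · rw [if_neg (fun h => h1 h.1), if_neg h1]

theorem lowB (hs : S_sw) : S_lowB := by
  intro K _ _ D Q ε hQ hε
  obtain ⟨A, hA⟩ := sw1 hs K D ε hε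
  refine ⟨Real.exp (-((D : ℝ) + (8 * (D : ℝ) ^ 3 + 2 * (D : ℝ) ^ 2))), Real.exp_pos _,
    A + Q.natDegree + 1, ?_⟩
  intro n y hy hBy hBn ρ Ps β hP
  refine ⟨lowB_vf D Q y hy Ps β hP, ?_⟩
  have hQn : Q.natDegree < n := by omega
  have hAy : A * y ≤ n - Q.natDegree := by
    have h1 : (A + Q.natDegree + 1) * y = A * y + (Q.natDegree + 1) * y := by ring
    have h2 : Q.natDegree + 1 ≤ (Q.natDegree + 1) * y := Nat.le_mul_of_pos_right _ hy
    omega
  obtain ⟨a₀, ha₀⟩ := Pool.Agent.H721.ParG.sum_res n Q ρ hQ hQn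
  obtain ⟨h1, h2, -⟩ := hA (n - Q.natDegree) y Ps β Q a₀ hy hAy (fun P hPs => by
    obtain ⟨e1, e2, e3, e4⟩ := hP.1 P hPs
    exact ⟨e1, e2, e3, ((e2.coprime_iff_not_dvd).2 e4).symm⟩) hP.2
  rw [← ha₀ (ind Ps β), ← lowB_card] at h1 h2
  have hq0 : (0 : ℝ) < (Fintype.card K : ℝ) := by
    have : 0 < Fintype.card K := Fintype.card_pos
    exact_mod_cast this
  have h5 : (Fintype.card K : ℝ) ^ n =
      (Fintype.card K : ℝ) ^ Q.natDegree * (Fintype.card K : ℝ) ^ (n - Q.natDegree) := by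
    rw [← pow_add]
    congr 1
    omega
  rw [h5]
  constructor
  · calc (1 - ε) * vf Ps β * ((Fintype.card K : ℝ) ^ Q.natDegree *
          (Fintype.card K : ℝ) ^ (n - Q.natDegree))
        = (Fintype.card K : ℝ) ^ Q.natDegree *
          ((1 - ε) * vf Ps β * (Fintype.card K : ℝ) ^ (n - Q.natDegree)) := by ring
      _ ≤ _ := mul_le_mul_of_nonneg_left h1 (by positivity)
  · calc (Fintype.card K : ℝ) ^ Q.natDegree * ((SfB K n Q ρ Ps β).card : ℝ)
        ≤ (Fintype.card K : ℝ) ^ Q.natDegree *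
          ((1 + ε) * vf Ps β * (Fintype.card K : ℝ) ^ (n - Q.natDegree)) :=
          mul_le_mul_of_nonneg_left h2 (by positivity)
      _ = _ := by ring

end Pool.Agent.H140.PE
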