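import Pool.Agent.H140.PE.Stm
import Pool.Agent.H721.Par.ParG

/-!
# Parity in sifted sets of polynomial values (helper140), task PARE (helper233)
-/

set_option autoImplicit false
set_option linter.unusedSectionVars false

open scoped Classical
open Polynomial

namespace Pool.Agent.H140.PE

open Pool.Agent.H985.Chow (mob MD)
open Pool.Agent.H985.Par (mass Fb S_sw)
open Pool.Agent.H694.Typ (Mn mem_Mn card_Mn PU mem_PU)
open Pool.Agent.H985.Chow.Asm (G G_inj G_add G_surj ta tb mem_deg G_mem mem_G card_deg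
  window_finsum sum_MD MD_finite instFD mem_of_natDegree_lt natDegree_lt_of_mem abs_mob)
open Pool.Agent.H225.Par
open Pool.Agent.H721.ParG (inG inG_nonneg inG_le)
open Pool.Agent.H140.Q (mobM)
open Pool.Agent.H140.E (PhE SepE)

namespace ParE

section prep

variable {K : Type} [Field K] [Fintype K]

lemma abs_mobM (m N f : K[X]) : |(mobM m N f : ℝ)| ≤ 1 := by
  unfold mobM
  split_ifs
  · exact abs_mob _
  · simp

lemma sum_SfB {D : ℕ} (n : ℕ) (Q ρ : K[X]) (Ps : Finset K[X]) (β : K[X] → Fin D → K[X])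
    (T : K[X] → ℝ) :
    ∑ f ∈ SfB K n Q ρ Ps β, T f = ∑ f ∈ Mn K n, inG Q ρ Ps β f * T f := by
  unfold SfB
  rw [Finset.sum_filter]
  refine Finset.sum_congr rfl fun f _ => ?_
  unfold inG ind
  by_cases h1 : Q ∣ f - ρ
  · by_cases h : Sd Ps β f
    · rw [if_pos h1, if_pos h, if_pos ⟨h1, h⟩, one_mul]
    · rw [if_pos h1, if_neg h, if_neg (fun h2 => h h2.2), zero_mul]
  · rw [if_neg h1, if_neg (fun h2 => h1 h2.1), zero_mul]

lemma card_SfB {D : ℕ} (n : ℕ) (Q ρ : K[X]) (Ps : Finset K[X]) (β : K[X] → Fin D → K[X]) :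
    ((SfB K n Q ρ Ps β).card : ℝ) = ∑ f ∈ Mn K n, inG Q ρ Ps β f := by
  have h := sum_SfB n Q ρ Ps β (fun _ => 1)
  rw [Finset.sum_const, nsmul_eq_mul, mul_one] at h
  rw [h]
  exact Finset.sum_congr rfl fun f _ => mul_one _

end prep

section block

variable {K : Type} [Field K] [Fintype K] [CharP K 2]

/-- the residues of a fibre, depending on the prime -/
noncomputable def be {D : ℕ} (σ τ : K[X] → Fin D → K[X]) (b P : K[X]) (i : Fin D) : K[X] :=
  bet (σ P) (τ P) b P i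

lemma vf_be {D : ℕ} (σ τ : K[X] → Fin D → K[X]) (Ps : Finset K[X])
    (hPs : ∀ P ∈ Ps, P.Monic ∧ Irreducible P) (b : K[X]) :
    vf Ps (be σ τ b) = vf Ps (fun P i => G (σ P i) (τ P i)) :=
  Finset.prod_congr rfl fun P hP => lf_bet (σ P) (τ P) (hPs P hP).2 (hPs P hP).1 b

lemma ind_be {D : ℕ} (σ τ : K[X] → Fin D → K[X]) (Ps : Finset K[X])
    (hPs : ∀ P ∈ Ps, P.Monic ∧ Irreducible P) (a b : K[X]) :
    ind Ps (fun P i => G (σ P i) (τ P i)) (G a b) = ind Ps (be σ τ b) a := by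
  unfold ind
  have h : Sd Ps (fun P i => G (σ P i) (τ P i)) (G a b) ↔ Sd Ps (be σ τ b) a := by
    constructor
    · intro h P hP i hi
      exact h P hP i ((dvd_bet (σ P) (τ P) (hPs P hP).2 a b i).1 hi)
    · intro h P hP i hi
      exact h P hP i ((dvd_bet (σ P) (τ P) (hPs P hP).2 a b i).2 hi)
  by_cases h1 : Sd Ps (be σ τ b) a
  · rw [if_pos h1, if_pos (h.2 h1)]
  · rw [if_neg h1, if_neg (fun h2 => h1 (h.1 h2))]

/-- the power saving on a fibre, the conclusion of FIBE, for general functions -/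
def FibE (K : Type) [Field K] [Fintype K] {r : ℕ} (κ c : ℝ) (n : ℕ) (F : Fin r → K[X] → ℝ)
    (s t : Fin r → K[X]) (b E : K[X]) : Prop :=
  ∀ (M : K[X]) (L : ℕ) (a : K[X]) (χ : AddChar K[X] ℝ),
            M ≠ 0 → E ∣ M → (M.natDegree : ℝ) ≤ 4 * κ * n →
            (∀ P : K[X], P.Monic → Irreducible P → P ∣ M → P ∣ E ∨ ∀ j, ¬ P ∣ b + t j) →
            (a ^ 2 + X * b ^ 2).Monic → (a ^ 2 + X * b ^ 2).natDegree = n →
            (1 - 3 * κ) * n ≤ 2 * ((M.natDegree : ℝ) + L) →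
            2 * ((M.natDegree : ℝ) + L) ≤ (1 - κ) * n →
            |∑ᶠ x ∈ {x : K[X] | x.degree < (L : WithBot ℕ)}, χ x * ∏ j,
              F j ((a + s j + M * x) ^ 2 + X * (b + t j) ^ 2)| ≤
                (Fintype.card K : ℝ) ^ ((L : ℝ) - c * n)

omit [CharP K 2] in
lemma abs_prod_F {r : ℕ} (F : Fin r → K[X] → ℝ) (hF : ∀ j f, |F j f| ≤ 1) (f : Fin r → K[X]) :
    |∏ j, F j (f j)| ≤ 1 := by
  rw [Finset.abs_prod]
  exact Finset.prod_le_one (fun i _ => abs_nonneg _) (fun i _ => hF _ _)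

/-- the bound for a typical fibre -/
theorem fibreE {D r B : ℕ} {ε : ℝ} (hε : 0 < ε) (hε8 : ε ≤ 1 / 8) (hB : SWC K D ε B)
    (n y : ℕ) (hy : 1 ≤ y) (Q ρ : K[X]) (hQ : Q ≠ 0) (hQy : Q.natDegree ≤ y)
    (P₀ : Finset K[X]) (σ τ : K[X] → Fin D → K[X])
    (hP₀ : ∀ P ∈ P₀, (P.Monic ∧ Irreducible P ∧ P.natDegree ≤ y) ∧ ¬ P ∣ Q)
    (F : Fin r → K[X] → ℝ) (hF : ∀ j f, |F j f| ≤ 1) (s' t' : Fin r → K[X])
    (κ c : ℝ) (hκ8 : κ ≤ 1 / 8)
    (hadm : ∀ P ∈ P₀, ∃ x, ∀ i, ¬ P ∣ x - G (σ P i) (τ P i))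
    (v' : K[X]) (hv' : v' ∈ degreeLT K (n / 2)) (b : K[X]) (hb : b = tb K n + v')
    (E : K[X]) (hE : E.Monic) (hEd : (E.natDegree : ℝ) ≤ κ * n)
    (hEP : ∀ P ∈ PU K y, (∃ j : Fin r, P ∣ b + t' j) → P ∣ E)
    (hfib : FibE K κ c n F s' t' b E)
    (hBy : (B * y + Q.natDegree : ℝ) ≤ κ * n) (hκn : 1 ≤ κ * n)
    (hsmall : 2 * ((D + 1 : ℝ) * Fintype.card K) ^ (B * y) * (Fintype.card K : ℝ) ^ (-(c * n)) ≤
      ε * vf P₀ (fun P i => G (σ P i) (τ P i))) :
    |∑ v : degreeLT K ((n + 1) / 2),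
        inG Q ρ P₀ (fun P i => G (σ P i) (τ P i)) (G (ta K n + (v : K[X])) b) *
        ∏ j, F j (G (ta K n + (v : K[X])) b + G (s' j) (t' j))| ≤
      4 * ε * ∑ v : degreeLT K ((n + 1) / 2),
        inG Q ρ P₀ (fun P i => G (σ P i) (τ P i)) (G (ta K n + (v : K[X])) b) := by
  have hq1 : (1 : ℝ) < Fintype.card K := by exact_mod_cast Fintype.one_lt_card
  have hq0 : (0 : ℝ) < Fintype.card K := by linarith
  have hn0 : (0 : ℝ) ≤ n := Nat.cast_nonneg _
  have hn8 : (8 : ℝ) ≤ n := by nlinarith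
  have hdQ0 : (0 : ℝ) ≤ Q.natDegree := Nat.cast_nonneg _
  have hBm0 : (0 : ℝ) ≤ B * y := by positivity
  obtain ⟨N1, hN1⟩ : ∃ N1, N1 = ⌊(1 - κ) * n / 2⌋₊ := ⟨_, rfl⟩
  have hx0 : 0 ≤ (1 - κ) * n / 2 := by
    have : 0 ≤ (1 - κ) * n := mul_nonneg (by linarith) hn0
    linarith
  have hN1a : (N1 : ℝ) ≤ (1 - κ) * n / 2 := by rw [hN1]; exact Nat.floor_le hx0
  have hN1b : (1 - κ) * n / 2 < N1 + 1 := by rw [hN1]; exact Nat.lt_floor_add_one _
  have hκn8 : κ * n ≤ n / 8 := by nlinarith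
  have hEN : E.natDegree + Q.natDegree + B * y ≤ N1 := by
    have h1 : ((E.natDegree + Q.natDegree + B * y : ℕ) : ℝ) ≤ N1 := by
      push_cast
      nlinarith
    exact_mod_cast h1
  have hE0 : E ≠ 0 := hE.ne_zero
  obtain ⟨M₁, hM₁⟩ : ∃ M₁, M₁ = E * Q := ⟨_, rfl⟩
  have hM0 : M₁ ≠ 0 := by rw [hM₁]; exact mul_ne_zero hE0 hQ
  have hMd : M₁.natDegree = E.natDegree + Q.natDegree := by rw [hM₁, natDegree_mul hE0 hQ]
  have hQM : Q ∣ M₁ := by rw [hM₁]; exact dvd_mul_left _ _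
  have hEM : E ∣ M₁ := by rw [hM₁]; exact dvd_mul_right _ _
  obtain ⟨L, hL⟩ : ∃ L, L = N1 - M₁.natDegree := ⟨_, rfl⟩
  have hEL : M₁.natDegree + L = N1 := by omega
  have hAL : B * y ≤ L := by omega
  have hN1N : N1 ≤ (n + 1) / 2 := by
    have h1 : 2 * (N1 : ℝ) ≤ n := by nlinarith
    have h2 : 2 * N1 ≤ n := by exact_mod_cast h1
    omega
  have hEm : ∀ u ∈ degreeLT K L, M₁ * u ∈ degreeLT K ((n + 1) / 2) := by
    intro u hu
    apply mem_of_natDegree_lt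
    by_cases hu0 : u = 0
    · left
      rw [hu0, mul_zero]
    · right
      have h1 := natDegree_lt_of_mem hu hu0
      rw [natDegree_mul hM0 hu0]
      omega
  have hPU : ∀ P ∈ P₀, P.Monic ∧ Irreducible P := fun P hP =>
    ⟨(hP₀ P hP).1.1, (hP₀ P hP).1.2.1⟩
  apply avg2 ((n + 1) / 2) L M₁ hEm
    (fun x => inG Q ρ P₀ (fun P i => G (σ P i) (τ P i)) (G (ta K n + x) b) *
        ∏ j, F j (G (ta K n + x) b + G (s' j) (t' j)))
    (fun x => inG Q ρ P₀ (fun P i => G (σ P i) (τ P i)) (G (ta K n + x) b))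
  intro v hv
  obtain ⟨a, ha⟩ : ∃ a, a = ta K n + v := ⟨_, rfl⟩
  have hcomb : ∀ u : K[X], ta K n + (v + M₁ * u) = a + M₁ * u := by
    intro u
    rw [ha, add_assoc]
  have hGM : ∀ u : K[X], G (a + M₁ * u) b = G a b + (M₁ * u) ^ 2 := by
    intro u
    rw [G, G, CharTwo.add_sq]
    ring
  simp only [hcomb]
  by_cases hres : Q ∣ G a b - ρ
  swap
  · -- the residue class does not meet the block
    have h0 : ∀ u : K[X],
        inG Q ρ P₀ (fun P i => G (σ P i) (τ P i)) (G (a + M₁ * u) b) = 0 := by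
      intro u
      unfold inG
      rw [if_neg]
      intro h
      apply hres
      have h1 : G (a + M₁ * u) b - ρ = (G a b - ρ) + (M₁ * u) ^ 2 := by rw [hGM]; ring
      rw [h1] at h
      have h2 : Q ∣ (M₁ * u) ^ 2 := Dvd.dvd.pow (Dvd.dvd.mul_right hQM u) two_ne_zero
      exact (dvd_add_left h2).1 h
    have h1 : ∑ u : degreeLT K L,
        inG Q ρ P₀ (fun P i => G (σ P i) (τ P i)) (G (a + M₁ * (u : K[X])) b) = 0 :=
      Finset.sum_eq_zero fun u _ => h0 _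
    have h2 : ∑ u : degreeLT K L,
        inG Q ρ P₀ (fun P i => G (σ P i) (τ P i)) (G (a + M₁ * (u : K[X])) b) *
        ∏ j, F j (G (a + M₁ * (u : K[X])) b + G (s' j) (t' j)) = 0 :=
      Finset.sum_eq_zero fun u _ => by rw [h0, zero_mul]
    rw [h1, h2, abs_zero, mul_zero]
  have hresu : ∀ u : K[X], inG Q ρ P₀ (fun P i => G (σ P i) (τ P i)) (G (a + M₁ * u) b) =
      ind P₀ (be σ τ b) (a + M₁ * u) := by
    intro u
    unfold inG
    rw [if_pos, ind_be σ τ P₀ hPU]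
    have h1 : G (a + M₁ * u) b - ρ = (G a b - ρ) + (M₁ * u) ^ 2 := by rw [hGM]; ring
    rw [h1]
    exact dvd_add hres (Dvd.dvd.pow (Dvd.dvd.mul_right hQM u) two_ne_zero)
  simp only [hresu]
  by_cases hbad : ∃ P ∈ P₀, P ∣ E ∧ ∃ i, P ∣ a - be σ τ b P i
  · obtain ⟨P, hP, hPE, i, hi⟩ := hbad
    have h0 : ∀ u : K[X], ind P₀ (be σ τ b) (a + M₁ * u) = 0 := by
      intro u
      unfold ind
      rw [if_neg]
      intro h
      apply h P hP i
      have h1 : a + M₁ * u - be σ τ b P i = (a - be σ τ b P i) + M₁ * u := by ring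
      rw [h1]
      exact dvd_add hi (Dvd.dvd.mul_right (hPE.trans hEM) u)
    have h1 : ∑ u : degreeLT K L, ind P₀ (be σ τ b) (a + M₁ * (u : K[X])) = 0 :=
      Finset.sum_eq_zero fun u _ => h0 _
    have h2 : ∑ u : degreeLT K L, ind P₀ (be σ τ b) (a + M₁ * (u : K[X])) *
        ∏ j, F j (G (a + M₁ * (u : K[X])) b + G (s' j) (t' j)) = 0 :=
      Finset.sum_eq_zero fun u _ => by rw [h0, zero_mul]
    rw [h1, h2, abs_zero, mul_zero]
  · obtain ⟨Ps, hPs⟩ : ∃ Ps, Ps = P₀.filter (fun P => ¬ P ∣ E) := ⟨_, rfl⟩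
    have hPsub : Ps ⊆ P₀ := by rw [hPs]; exact Finset.filter_subset _ _
    have h0 : ∀ u : K[X], ind P₀ (be σ τ b) (a + M₁ * u) = ind Ps (be σ τ b) (a + M₁ * u) := by
      intro u
      unfold ind
      by_cases h1 : Sd Ps (be σ τ b) (a + M₁ * u)
      · rw [if_pos h1, if_pos]
        intro P hP i hi
        by_cases hPE : P ∣ E
        · apply hbad
          refine ⟨P, hP, hPE, i, ?_⟩
          have h2 : a + M₁ * u - be σ τ b P i = (a - be σ τ b P i) + M₁ * u := by ring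
          rw [h2] at hi
          exact (dvd_add_left (Dvd.dvd.mul_right (hPE.trans hEM) u)).1 hi
        · exact h1 P (by rw [hPs, Finset.mem_filter]; exact ⟨hP, hPE⟩) i hi
      · rw [if_neg h1, if_neg]
        intro h2
        exact h1 fun P hP i => h2 P (hPsub hP) i
    simp only [h0]
    have hmon : ∀ P ∈ Ps, P.Monic := fun P hP => (hPU P (hPsub hP)).1
    have hnE : ∀ P ∈ Ps, ¬ P ∣ E := by
      intro P hP
      rw [hPs, Finset.mem_filter] at hP
      exact hP.2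
    have hadm2 : ∀ P ∈ Ps, ∃ r, ∀ i, ¬ P ∣ r - be σ τ b P i := fun P hP =>
      adm_bet (σ P) (τ P) (hPU P (hPsub hP)).2 b (hadm P (hPsub hP))
    obtain ⟨h1, -, h3⟩ := hB L y Ps (be σ τ b) M₁ a hy hAL (by
      intro P hP
      have hP1 := hP₀ P (hPsub hP)
      refine ⟨hP1.1.1, hP1.1.2.1, hP1.1.2.2, ?_⟩
      have h2 : ¬ P ∣ M₁ := by
        rw [hM₁]
        intro h
        rcases hP1.1.2.1.prime.dvd_or_dvd h with h | h
        · exact hnE P hP h
        · exact hP1.2 h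
      exact ((hP1.1.2.1.coprime_iff_not_dvd).2 h2).symm) hadm2
    have hV : vf P₀ (fun P i => G (σ P i) (τ P i)) ≤ vf Ps (be σ τ b) := by
      rw [← vf_be σ τ P₀ hPU b]
      exact vf_mono P₀ Ps (be σ τ b) hPsub (fun P hP => (hPU P hP).1)
        (fun P hP => adm_bet (σ P) (τ P) (hPU P hP).2 b (hadm P hP))
    have hV0 : 0 < vf Ps (be σ τ b) := vf_pos Ps _ hmon hadm2
    have hqL : (0 : ℝ) < (Fintype.card K : ℝ) ^ L := pow_pos hq0 _
    have h4 := h3 (fun u => ∏ j, F j (G (a + M₁ * u) b + G (s' j) (t' j)))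
      ((Fintype.card K : ℝ) ^ ((L : ℝ) - c * n)) (fun u => abs_prod_F F hF _)
      (Real.rpow_nonneg hq0.le _) (by
        intro D₁ r₁ L' hD hDdvd hDL hDA hr
        have hD0 : D₁ ≠ 0 := hD.ne_zero
        have hEDd : (M₁ * D₁).natDegree = M₁.natDegree + D₁.natDegree := natDegree_mul hM0 hD0
        have hErm : M₁ * r₁ ∈ degreeLT K ((n + 1) / 2) := by
          apply hEm
          rw [mem_degreeLT]
          refine lt_of_lt_of_le hr ?_
          rw [degree_eq_natDegree hD0]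
          exact_mod_cast (by omega : D₁.natDegree ≤ L)
        have hmem := G_mem n (v + M₁ * r₁) v' (add_mem hv hErm) hv'
        rw [← add_assoc, ← ha, ← hb] at hmem
        have hsum : ((M₁ * D₁).natDegree : ℝ) + L' = N1 := by
          rw [hEDd]
          exact_mod_cast (by omega : M₁.natDegree + D₁.natDegree + L' = N1)
        have h5 := hfib (M₁ * D₁) L' (a + M₁ * r₁) 1 (mul_ne_zero hM0 hD0)
          (hEM.trans (dvd_mul_right _ _)) (by
            rw [hEDd, hMd]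
            have h6 : (D₁.natDegree : ℝ) ≤ B * y := by exact_mod_cast hDA
            push_cast
            nlinarith) (by
            intro P hP1 hP2 hP3
            rw [hM₁] at hP3
            rcases hP2.prime.dvd_or_dvd hP3 with h6 | h6
            · rcases hP2.prime.dvd_or_dvd h6 with h7 | h7
              · exact Or.inl h7
              · -- `P` divides `Q`
                have h8 : P.natDegree ≤ y := (natDegree_le_of_dvd h7 hQ).trans hQy
                by_cases h9 : ∃ i, P ∣ b + t' i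
                · exact Or.inl (hEP P (mem_PU.2 ⟨hP1, hP2, h8⟩) h9)
                · right
                  intro i hi
                  exact h9 ⟨i, hi⟩
            · -- `P` is one of the primes in `Ps`
              have h7 : P ∣ ∏ P ∈ Ps, P := h6.trans hDdvd
              obtain ⟨P', hP', h8⟩ := (hP2.prime.dvd_finsetProd_iff _).1 h7
              have h9 : P = P' := eq_of_monic_of_associated hP1 (hmon P' hP')
                (hP2.associated_of_dvd (hPU P' (hPsub hP')).2 h8)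
              right
              intro i hi
              rw [h9] at hi
              have hP4 := hP₀ P' (hPsub hP')
              exact hnE P' hP' (hEP P' (mem_PU.2 hP4.1) ⟨i, hi⟩)) hmem.1 hmem.2 (by
            rw [hsum]
            nlinarith) (by
            rw [hsum]
            linarith)
        refine le_trans (le_of_eq ?_) (h5.trans ?_)
        · congr 1
          refine finsum_mem_congr rfl fun w _ => ?_
          rw [AddChar.one_apply, one_mul]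
          refine Finset.prod_congr rfl fun j _ => ?_
          have h7 : G (a + M₁ * (r₁ + D₁ * w)) b + G (s' j) (t' j) =
              (a + M₁ * r₁ + s' j + M₁ * D₁ * w) ^ 2 + X * (b + t' j) ^ 2 := by
            rw [← G_add, G]
            ring
          rw [h7]
        · apply Real.rpow_le_rpow_of_exponent_le hq1.le
          have h6 : (L' : ℝ) ≤ L := by exact_mod_cast (by omega : L' ≤ L)
          linarith)
    have h5 : 2 * ((D + 1 : ℝ) * Fintype.card K) ^ (B * y) *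
        (Fintype.card K : ℝ) ^ ((L : ℝ) - c * n) ≤
        ε * vf Ps (be σ τ b) * (Fintype.card K : ℝ) ^ L := by
      have h6 : (Fintype.card K : ℝ) ^ ((L : ℝ) - c * n) =
          (Fintype.card K : ℝ) ^ (-(c * n)) * (Fintype.card K : ℝ) ^ L := by
        rw [sub_eq_neg_add, Real.rpow_add hq0, Real.rpow_natCast]
      rw [h6, ← mul_assoc]
      apply mul_le_mul_of_nonneg_right _ hqL.le
      exact hsmall.trans (mul_le_mul_of_nonneg_left hV hε.le)
    obtain ⟨Sg, hSg⟩ : ∃ Sg, Sg = ∑ u : degreeLT K L, ind Ps (be σ τ b) (a + M₁ * (u : K[X])) :=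
      ⟨_, rfl⟩
    rw [← hSg] at h1 ⊢
    obtain ⟨W, hW⟩ : ∃ W, W = vf Ps (be σ τ b) * (Fintype.card K : ℝ) ^ L := ⟨_, rfl⟩
    have hW0 : 0 < W := by rw [hW]; positivity
    rw [mul_assoc, ← hW] at h1
    rw [mul_assoc ε, ← hW] at h4 h5
    refine h4.trans ?_
    have h6 : W ≤ 2 * Sg := by nlinarith
    nlinarith

end block

end ParE

open ParE

/-- **Task PARE.** -/
theorem parE (hf : S_fibE) (hs : S_sw) (hl : S_lowB) : S_parE := by
  intro K _ _ _ r cp u v N m s t D Q ε hr hsep hm ht hQ hε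
  have hq1 : (1 : ℝ) < Fintype.card K := by exact_mod_cast Fintype.one_lt_card
  have hq0 : (0 : ℝ) < Fintype.card K := by linarith
  have hq2 : 2 ≤ Fintype.card K := Fintype.one_lt_card
  obtain ⟨ε₁, hε₁⟩ : ∃ ε₁ : ℝ, ε₁ = min ε 1 / 8 := ⟨_, rfl⟩
  have hε₁0 : 0 < ε₁ := by
    rw [hε₁]
    have : 0 < min ε 1 := lt_min hε one_pos
    linarith
  have hε₁8 : ε₁ ≤ 1 / 8 := by
    rw [hε₁]
    have : min ε 1 ≤ 1 := min_le_right _ _
    linarith
  have hε₁ε : 8 * ε₁ ≤ ε := by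
    rw [hε₁]
    have : min ε 1 ≤ ε := min_le_left _ _
    linarith
  obtain ⟨B, hB⟩ := sw1 hs K D ε₁ hε₁0
  have hBC : SWC K D ε₁ B := hB
  obtain ⟨q', hq'⟩ : ∃ q' : ℝ, q' = (Fintype.card K : ℝ) ^ Q.natDegree := ⟨_, rfl⟩
  have hq'0 : 0 < q' := by rw [hq']; exact pow_pos hq0 _
  obtain ⟨κ, θ, c, hκ, hκ8, hθ, hc, n₁, hfib⟩ :=
    hf K r cp u v N m s t (ε / (4 * q')) hr hsep hm ht (by positivity)
  obtain ⟨c', hc', B', hlow⟩ := hl K D Q ε₁ hQ hε₁0
  obtain ⟨δ, hδ⟩ : ∃ δ : ℝ, δ = ε₁ * c' := ⟨_, rfl⟩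
  have hδ0 : 0 < δ := by rw [hδ]; positivity
  obtain ⟨κ₀, hκ₀, n₂, has⟩ := asym (Fintype.card K) D B c δ hq2 hc hδ0
  have hA1 : (0 : ℝ) < B + 1 := by positivity
  have hA2 : (0 : ℝ) < B' + 1 := by positivity
  obtain ⟨κf, hκf⟩ : ∃ κf : ℝ, κf = min (min κ₀ θ) (min (κ / (B + 1)) (1 / (B' + 1))) := ⟨_, rfl⟩
  have hκf0 : 0 < κf := by
    rw [hκf]
    exact lt_min (lt_min hκ₀ hθ) (lt_min (by positivity) (by positivity))
  have hκf1 : κf ≤ κ₀ := by rw [hκf]; exact (min_le_left _ _).trans (min_le_left _ _)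
  have hκf2 : κf ≤ θ := by rw [hκf]; exact (min_le_left _ _).trans (min_le_right _ _)
  have hκf3 : κf * (B + 1) ≤ κ := by
    rw [← le_div_iff₀ hA1, hκf]
    exact (min_le_right _ _).trans (min_le_left _ _)
  have hκf4 : κf * (B' + 1) ≤ 1 := by
    rw [← le_div_iff₀ hA2, hκf]
    exact (min_le_right _ _).trans (min_le_right _ _)
  refine ⟨κf, hκf0, 1 + Q.natDegree, n₁ + n₂ + ⌈1 / κ⌉₊ + B' + Q.natDegree + 1, ?_⟩
  intro n hn y hy hyn ρ Ps β hSv
  have hn0 : (0 : ℝ) ≤ n := Nat.cast_nonneg _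
  have hy0 : (0 : ℝ) ≤ y := Nat.cast_nonneg _
  have hy1 : 1 ≤ y := by omega
  have hQy : Q.natDegree ≤ y := by omega
  have hκn : 1 ≤ κ * n := by
    have h1 : (1 / κ : ℝ) ≤ n := by
      refine (Nat.le_ceil _).trans ?_
      exact_mod_cast (by omega : ⌈1 / κ⌉₊ ≤ n)
    rw [div_le_iff₀ hκ] at h1
    linarith
  have hyκ₀ : (y : ℝ) ≤ κ₀ * n := hyn.trans (mul_le_mul_of_nonneg_right hκf1 hn0)
  have hyθ : (y : ℝ) ≤ θ * n := hyn.trans (mul_le_mul_of_nonneg_right hκf2 hn0)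
  have hBy : (B * y + Q.natDegree : ℝ) ≤ κ * n := by
    have h1 : (B + 1 : ℝ) * y ≤ (B + 1) * (κf * n) := mul_le_mul_of_nonneg_left hyn hA1.le
    have h2 : κf * (B + 1) * n ≤ κ * n := mul_le_mul_of_nonneg_right hκf3 hn0
    have h3 : (Q.natDegree : ℝ) ≤ y := by exact_mod_cast hQy
    nlinarith
  have hB'y : B' * y ≤ n := by
    have h1 : (B' + 1 : ℝ) * y ≤ (B' + 1) * (κf * n) := mul_le_mul_of_nonneg_left hyn hA2.le
    have h2 : κf * (B' + 1) * n ≤ 1 * n := mul_le_mul_of_nonneg_right hκf4 hn0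
    have h3 : ((B' * y : ℕ) : ℝ) ≤ n := by
      push_cast
      nlinarith
    exact_mod_cast h3
  -- the residues
  choose σ τ hστ using fun (P : K[X]) (i : Fin D) => G_surj (β P i)
  have hβ : (fun P i => G (σ P i) (τ P i)) = β := funext fun P => funext fun i => hστ P i
  have hP₀ : ∀ P ∈ Ps, (P.Monic ∧ Irreducible P ∧ P.natDegree ≤ y) ∧ ¬ P ∣ Q := fun P hP =>
    ⟨⟨(hSv.1 P hP).1, (hSv.1 P hP).2.1, (hSv.1 P hP).2.2.1⟩, (hSv.1 P hP).2.2.2⟩
  have hadm : ∀ P ∈ Ps, ∃ x, ∀ i, ¬ P ∣ x - G (σ P i) (τ P i) := by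
    intro P hP
    obtain ⟨x, hx⟩ := hSv.2 P hP
    refine ⟨x, fun i => ?_⟩
    rw [hστ]
    exact hx i
  have hPU : ∀ P ∈ Ps, P.Monic ∧ Irreducible P := fun P hP =>
    ⟨(hP₀ P hP).1.1, (hP₀ P hP).1.2.1⟩
  have hPU1 : ∀ P ∈ Ps, P.Monic ∧ Irreducible P ∧ P.natDegree ≤ y ∧
      IsCoprime (1 : K[X]) P :=
    fun P hP => ⟨(hP₀ P hP).1.1, (hP₀ P hP).1.2.1, (hP₀ P hP).1.2.2, isCoprime_one_left⟩
  obtain ⟨V, hV⟩ : ∃ V, V = vf Ps β := ⟨_, rfl⟩
  obtain ⟨Z, hZ⟩ : ∃ Z : ℝ, Z = (SfB K n Q ρ Ps β).card := ⟨_, rfl⟩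
  have hZ0 : 0 ≤ Z := by rw [hZ]; exact Nat.cast_nonneg _
  obtain ⟨hVc, hZlo0, -⟩ := hlow n y hy1 hB'y (by omega) ρ Ps β hSv
  have hyD : (0 : ℝ) < (y : ℝ) ^ D := by
    have : (0 : ℝ) < y := by exact_mod_cast hy1
    positivity
  rw [← hV] at hVc hZlo0
  rw [← hZ, ← hq'] at hZlo0
  have hV0 : 0 < V := lt_of_lt_of_le (by positivity) hVc
  have hVlow : δ ≤ ε₁ * V * (y : ℝ) ^ D := by
    rw [div_le_iff₀ hyD] at hVc
    rw [hδ, mul_assoc]
    exact mul_le_mul_of_nonneg_left hVc hε₁0.le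
  have hsmall : 2 * ((D + 1 : ℝ) * Fintype.card K) ^ (B * y) *
      (Fintype.card K : ℝ) ^ (-(c * n)) ≤
      ε₁ * vf Ps (fun P i => G (σ P i) (τ P i)) := by
    rw [hβ, ← hV]
    have h1 := (has n (by omega) y hyκ₀).trans hVlow
    exact le_of_mul_le_mul_right h1 hyD
  -- the functions
  obtain ⟨F, hFdef⟩ : ∃ F : Fin r → K[X] → ℝ, F = fun j f =>
    (mobM (m j) (N j) ((PhE (cp j)).eval f) : ℝ) := ⟨_, rfl⟩
  have hF : ∀ j f, |F j f| ≤ 1 := by
    intro j f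
    rw [hFdef]
    exact abs_mobM _ _ _
  -- the fibres
  obtain ⟨Exc, hExc, hExcn, hgood⟩ := hfib n (by omega) {P : K[X] | P ∈ PU K y}
    ((mass_le y n).trans hyθ)
  obtain ⟨T, hT⟩ : ∃ T : degreeLT K (n / 2) → ℝ, T = fun v' : degreeLT K (n / 2) =>
      ∑ v : degreeLT K ((n + 1) / 2),
      inG Q ρ Ps (fun P i => G (σ P i) (τ P i))
        (G (ta K n + (v : K[X])) (tb K n + (v' : K[X]))) *
        ∏ j, F j (G (ta K n + (v : K[X])) (tb K n + (v' : K[X])) + G (s j) (t j)) :=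
    ⟨_, rfl⟩
  obtain ⟨U, hU⟩ : ∃ U : degreeLT K (n / 2) → ℝ, U = fun v' : degreeLT K (n / 2) =>
      ∑ v : degreeLT K ((n + 1) / 2),
      inG Q ρ Ps (fun P i => G (σ P i) (τ P i))
        (G (ta K n + (v : K[X])) (tb K n + (v' : K[X]))) :=
    ⟨_, rfl⟩
  have hZU : Z = ∑ v', U v' := by
    rw [hZ, card_SfB, sum_Mn, sum_MD, hU, hβ]
  have hsumT : ∑ a ∈ SfB K n Q ρ Ps β, ∏ j,
      (mobM (m j) (N j) ((PhE (cp j)).eval (a + (s j ^ 2 + X * t j ^ 2))) : ℝ) =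
      ∑ v', T v' := by
    rw [sum_SfB, sum_Mn, sum_MD, hT, hβ, hFdef]
    rfl
  have hTU : ∀ v', |T v'| ≤ U v' := by
    intro v'
    rw [hT, hU]
    refine (Finset.abs_sum_le_sum_abs _ _).trans (Finset.sum_le_sum fun v _ => ?_)
    rw [abs_mul, abs_of_nonneg (inG_nonneg _ _ _ _ _)]
    exact mul_le_of_le_one_right (inG_nonneg _ _ _ _ _) (abs_prod_F F hF _)
  obtain ⟨N', hN'⟩ : ∃ N', N' = (n + 1) / 2 := ⟨_, rfl⟩
  have hUle : ∀ v', U v' ≤ (1 + ε₁) * V * (Fintype.card K : ℝ) ^ N' := by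
    intro v'
    have hAN : B * y ≤ N' := by
      have h3 : ((B * y : ℕ) : ℝ) ≤ κ * n := by
        push_cast
        have : (0 : ℝ) ≤ Q.natDegree := Nat.cast_nonneg _
        linarith
      have h4 : (8 : ℝ) * ((B * y : ℕ) : ℝ) ≤ n := by nlinarith
      have h5 : 8 * (B * y) ≤ n := by exact_mod_cast h4
      omega
    have h1 := (hB N' y Ps (be σ τ (tb K n + (v' : K[X]))) 1 (ta K n) hy1 hAN
      hPU1 (fun P hP => adm_bet (σ P) (τ P) (hPU P hP).2 _ (hadm P hP))).2.1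
    rw [vf_be σ τ Ps hPU, hβ, ← hV] at h1
    rw [hU, hN']
    rw [hN'] at h1
    refine le_trans (Finset.sum_le_sum fun v _ => inG_le _ _ _ _ _) ?_
    refine le_trans (le_of_eq ?_) h1
    refine Finset.sum_congr rfl fun v _ => ?_
    rw [one_mul, ind_be σ τ Ps hPU]
  have hTgood : ∀ v' : degreeLT K (n / 2), tb K n + (v' : K[X]) ∉ Exc → |T v'| ≤ 4 * ε₁ * U v' := by
    intro v' hv'
    obtain ⟨E, hE, hEd, hEP, hEfib⟩ := hgood (tb K n + (v' : K[X])) (mem_Fb n v') hv'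
    rw [hT, hU]
    refine fibreE hε₁0 hε₁8 hBC n y hy1 Q ρ hQ hQy Ps σ τ hP₀ F hF s t
      κ c hκ8 hadm (v' : K[X]) v'.2 _ rfl E hE hEd
      (fun P hP hj => hEP P hP (mem_PU.1 hP).1 (mem_PU.1 hP).2.1 hj) ?_ hBy hκn hsmall
    intro M L a χ h1 h2 h3 h4 h5 h6 h7 h8
    rw [hFdef]
    exact hEfib M L a χ h1 h2 h3 h4 h5 h6 h7 h8
  have hqN : (0 : ℝ) < (Fintype.card K : ℝ) ^ N' := pow_pos hq0 _
  have hall : ∀ v' : degreeLT K (n / 2), |T v'| ≤ 4 * ε₁ * U v' +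
      (if tb K n + (v' : K[X]) ∈ Exc then (1 + ε₁) * V * (Fintype.card K : ℝ) ^ N' else 0) := by
    intro v'
    have hU0 : 0 ≤ U v' := (abs_nonneg _).trans (hTU v')
    split_ifs with h
    · have h1 := (hTU v').trans (hUle v')
      have h2 : 0 ≤ 4 * ε₁ * U v' := by positivity
      linarith
    · rw [add_zero]
      exact hTgood v' h
  rw [hsumT, ← hZ]
  refine (Finset.abs_sum_le_sum_abs _ _).trans ?_
  refine (Finset.sum_le_sum (fun v' _ => hall v')).trans ?_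
  rw [Finset.sum_add_distrib, ← Finset.mul_sum, ← hZU, ← Finset.sum_filter, Finset.sum_const,
    nsmul_eq_mul]
  have hcard : (((Finset.univ : Finset (degreeLT K (n / 2))).filter
      (fun v' : degreeLT K (n / 2) => tb K n + (v' : K[X]) ∈ Exc)).card : ℝ) ≤
      ε / (4 * q') * (Fintype.card K : ℝ) ^ (n / 2) := by
    refine le_trans ?_ hExcn
    exact_mod_cast card_exc n Exc ((Fb_finite n).subset hExc)
  have hnn : (Fintype.card K : ℝ) ^ n =
      (Fintype.card K : ℝ) ^ (n / 2) * (Fintype.card K : ℝ) ^ N' := by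
    rw [← pow_add]
    congr 1
    omega
  have h1 : (((Finset.univ : Finset (degreeLT K (n / 2))).filter
      (fun v' : degreeLT K (n / 2) => tb K n + (v' : K[X]) ∈ Exc)).card : ℝ) *
      ((1 + ε₁) * V * (Fintype.card K : ℝ) ^ N') ≤
      ε / (4 * q') * (Fintype.card K : ℝ) ^ (n / 2) * ((1 + ε₁) * V * (Fintype.card K : ℝ) ^ N') :=
    mul_le_mul_of_nonneg_right hcard (by positivity)
  obtain ⟨W, hW⟩ : ∃ W, W = V * (Fintype.card K : ℝ) ^ n := ⟨_, rfl⟩
  have hW0 : 0 < W := by rw [hW]; positivity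
  have h2 : ε / (4 * q') * (Fintype.card K : ℝ) ^ (n / 2) *
      ((1 + ε₁) * V * (Fintype.card K : ℝ) ^ N') = ε / (4 * q') * ((1 + ε₁) * W) := by
    rw [hW, hnn]
    ring
  rw [mul_assoc (1 - ε₁), ← hW] at hZlo0
  rw [h2] at h1
  have h3 : (1 + ε₁) * W ≤ 2 * (q' * Z) := by nlinarith
  have h4 : ε / (4 * q') * ((1 + ε₁) * W) ≤ ε / (4 * q') * (2 * (q' * Z)) :=
    mul_le_mul_of_nonneg_left h3 (by positivity)
  have h5 : 4 * ε₁ * Z ≤ ε / 2 * Z := mul_le_mul_of_nonneg_right (by linarith) hZ0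
  have h6 : ε / (4 * q') * (2 * (q' * Z)) = ε / 2 * Z := by
    field_simp
    ring
  linarith

end Pool.Agent.H140.PE
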