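import Pool.Agent.H140.PE.Stm
import Pool.Agent.H140.E.MobE
import Pool.Agent.H140.E.IntrA

/-!
# Task PARF: parity of the values of one polynomial in sifted sets

By helper122.  The algebraic reduction of `S_parF` to the normal form `S_parE`.
-/

set_option autoImplicit false

namespace Pool.Agent.H140.PE

open Polynomial
open scoped Classical
open Pool.Agent.H985.Chow (mob MD)
open Pool.Agent.H694.Typ (Mn mem_Mn card_Mn PU mem_PU)
open Pool.Agent.H225.Par (Sd vf)
open Pool.Agent.H140.Q (mobM)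
open Pool.Agent.H140.E (PhE SepE)
open Pool.Agent.H140.E.MobE (setup sq_dvd_eval)

namespace ParFN

variable {K : Type} [Field K]

/-- clearing denominators in the relation of separability (copy of `E.sep_clear`) -/
theorem sep_clear' (f : K[X][X])
    (h : (f.map (algebraMap K[X] (RatFunc K))).Separable) :
    ∃ (u v : K[X][X]) (N : K[X]), N ≠ 0 ∧ u * f + v * derivative f = C N := by
  obtain ⟨a, b, hab⟩ := h
  obtain ⟨x, hx, hxa⟩ := IsLocalization.integerNormalization_spec (nonZeroDivisors K[X]) a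
  obtain ⟨y, hy, hyb⟩ := IsLocalization.integerNormalization_spec (nonZeroDivisors K[X]) b
  set A := IsLocalization.integerNormalization (nonZeroDivisors K[X]) a
  set B := IsLocalization.integerNormalization (nonZeroDivisors K[X]) b
  refine ⟨C y * A, C x * B, x * y,
    mul_ne_zero (nonZeroDivisors.ne_zero hx) (nonZeroDivisors.ne_zero hy), ?_⟩
  apply map_injective (algebraMap K[X] (RatFunc K))
    (IsFractionRing.injective K[X] (RatFunc K))
  rw [Polynomial.map_add, Polynomial.map_mul, Polynomial.map_mul, Polynomial.map_mul,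
    Polynomial.map_mul, hxa, hyb, map_C, map_C, map_C, ← derivative_map, Algebra.smul_def,
    Algebra.smul_def, map_mul, C_mul]
  have e1 : ∀ r : K[X], algebraMap K[X] (RatFunc K)[X] r =
      C (algebraMap K[X] (RatFunc K) r) := fun r => by
    rw [IsScalarTower.algebraMap_apply K[X] (RatFunc K) (RatFunc K)[X],
      Polynomial.algebraMap_eq]
  rw [e1, e1]
  calc _ = C (algebraMap K[X] (RatFunc K) x) * C (algebraMap K[X] (RatFunc K) y) *
        (a * f.map (algebraMap K[X] (RatFunc K)) +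
          b * derivative (f.map (algebraMap K[X] (RatFunc K)))) := by ring
    _ = _ := by rw [hab, mul_one]

theorem mob_assoc {x y : K[X]} (h : Associated x y) : mob x = mob y := by
  have h1 : Squarefree x ↔ Squarefree y :=
    ⟨fun h2 => h2.squarefree_of_dvd h.symm.dvd, fun h2 => h2.squarefree_of_dvd h.dvd⟩
  have h2 : Multiset.card (UniqueFactorizationMonoid.factors x) =
      Multiset.card (UniqueFactorizationMonoid.factors y) :=
    Multiset.card_eq_card_of_rel (UniqueFactorizationMonoid.factors_rel_of_associated h)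
  unfold mob
  by_cases h3 : Squarefree x
  · rw [if_pos h3, if_pos (h1.1 h3), h2]
  · rw [if_neg h3, if_neg (fun h4 => h3 (h1.2 h4))]

theorem mob_mul {x y : K[X]} (h : Squarefree (x * y)) : mob (x * y) = mob x * mob y := by
  have hx : Squarefree x := h.squarefree_of_dvd (dvd_mul_right _ _)
  have hy : Squarefree y := h.squarefree_of_dvd (dvd_mul_left _ _)
  unfold mob
  rw [if_pos h, if_pos hx, if_pos hy, ← pow_add]
  rw [Multiset.card_eq_card_of_rel (UniqueFactorizationMonoid.factors_mul hx.ne_zero hy.ne_zero),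
    Multiset.card_add]

theorem mob_one' : mob (1 : K[X]) = 1 := by
  unfold mob
  rw [if_pos squarefree_one, UniqueFactorizationMonoid.factors_one]
  simp

theorem mob_prod {ι : Type*} (s : Finset ι) (x : ι → K[X]) (h : Squarefree (∏ i ∈ s, x i)) :
    mob (∏ i ∈ s, x i) = ∏ i ∈ s, mob (x i) := by
  induction s using Finset.induction_on with
  | empty => rw [Finset.prod_empty, Finset.prod_empty, mob_one']
  | insert i s hi ih =>
    rw [Finset.prod_insert hi] at h ⊢
    rw [Finset.prod_insert hi, mob_mul h, ih (h.squarefree_of_dvd (dvd_mul_left _ _))]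

/-- the part of `x` at the primes of `Q` -/
noncomputable def mm (Q x : K[X]) : K[X] := normalize (EuclideanDomain.gcd x Q)

theorem mm_dvd_left (Q x : K[X]) : mm Q x ∣ x :=
  (normalize_associated _).dvd.trans (EuclideanDomain.gcd_dvd_left _ _)

theorem mm_dvd_right (Q x : K[X]) : mm Q x ∣ Q :=
  (normalize_associated _).dvd.trans (EuclideanDomain.gcd_dvd_right _ _)

theorem dvd_mm {Q x d : K[X]} (h1 : d ∣ x) (h2 : d ∣ Q) : d ∣ mm Q x :=
  (EuclideanDomain.dvd_gcd h1 h2).trans (normalize_associated _).symm.dvd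

theorem mm_monic {Q x : K[X]} (hQ : Q ≠ 0) : (mm Q x).Monic := by
  apply monic_normalize
  intro h
  exact hQ (EuclideanDomain.gcd_eq_zero_iff.1 h).2

theorem mm_congr {Q x y : K[X]} (hQ : Q ≠ 0) (h : Q ∣ x - y) : mm Q x = mm Q y := by
  apply eq_of_monic_of_associated (mm_monic hQ) (mm_monic hQ)
  apply associated_of_dvd_dvd
  · refine dvd_mm ?_ (mm_dvd_right _ _)
    have h1 := dvd_sub (mm_dvd_left Q x) ((mm_dvd_right Q x).trans h)
    rwa [sub_sub_cancel] at h1
  · refine dvd_mm ?_ (mm_dvd_right _ _)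
    have h1 := dvd_add ((mm_dvd_right Q y).trans h) (mm_dvd_left Q y)
    rwa [sub_add_cancel] at h1

/-- the value at one `g` -/
theorem value (I : Finset K[X]) (G : K[X] → K[X][X]) (NN : K[X] → K[X])
    (f u v : K[X][X]) (a b c N Q g : K[X])
    (hid : C (a ^ 2) * ∏ τ ∈ I, G τ = C (b ^ 2) * (C c * f))
    (hsep : u * f + v * derivative f = C N) (hQ : Q ≠ 0)
    (hbc : b ^ 2 * c ∣ Q) (haQ : a ∣ Q) (hNQ : N ∣ Q) (hNN : ∀ τ ∈ I, NN τ ∣ Q)
    (hg0 : f.eval g ≠ 0) (hg : ∀ P, Irreducible P → P ∣ Q → ¬ P ∣ f.eval g) :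
    mob (f.eval g) = ∏ τ ∈ I, mobM (mm Q ((G τ).eval g)) (NN τ) ((G τ).eval g) := by
  have hbcne : b ^ 2 * c ≠ 0 := fun h => hQ (by rw [h] at hbc; exact zero_dvd_iff.1 hbc)
  have hane : a ≠ 0 := fun h => hQ (by rw [h] at haQ; exact zero_dvd_iff.1 haQ)
  have h1 : a ^ 2 * ∏ τ ∈ I, (G τ).eval g = b ^ 2 * c * f.eval g := by
    have h2 := congrArg (eval g) hid
    rw [eval_mul, eval_mul, eval_mul, eval_C, eval_C, eval_C, eval_prod] at h2
    rw [h2]; ring
  have hx0 : ∀ τ ∈ I, (G τ).eval g ≠ 0 := by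
    have h2 : ∏ τ ∈ I, (G τ).eval g ≠ 0 := by
      intro h3
      rw [h3, mul_zero] at h1
      exact mul_ne_zero hbcne hg0 h1.symm
    exact Finset.prod_ne_zero_iff.1 h2
  obtain ⟨y, hy⟩ : ∃ y : K[X] → K[X], ∀ τ, (G τ).eval g = mm Q ((G τ).eval g) * y τ := by
    choose y hy using fun τ => mm_dvd_left Q ((G τ).eval g)
    exact ⟨y, hy⟩
  have hmne : ∀ τ, mm Q ((G τ).eval g) ≠ 0 := fun τ => (mm_monic hQ).ne_zero
  -- coprimality to `Q`
  have hcop : ∀ τ ∈ I, ∀ P, Irreducible P → P ∣ Q → ¬ P ∣ y τ := by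
    intro τ hτ P hP hPQ hPy
    obtain ⟨k, n, hn, hk⟩ := WfDvdMonoid.max_power_factor (hmne τ) hP
    have h2 : P ^ (k + 1) ∣ (G τ).eval g := by
      rw [hy τ, hk]
      obtain ⟨w, hw⟩ := hPy
      exact ⟨n * w, by rw [hw]; ring⟩
    have h3 : P ^ (k + 1) ∣ b ^ 2 * c * f.eval g := by
      rw [← h1]
      exact Dvd.dvd.mul_left (h2.trans (Finset.dvd_prod_of_mem (fun τ => (G τ).eval g) hτ)) _
    have h4 : P ^ (k + 1) ∣ b ^ 2 * c :=
      hP.prime.pow_dvd_of_dvd_mul_right (k + 1) (hg P hP hPQ) h3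
    have h5 : P ^ (k + 1) ∣ mm Q ((G τ).eval g) := dvd_mm h2 (h4.trans hbc)
    rw [hk, pow_succ] at h5
    exact hn ((mul_dvd_mul_iff_left (pow_ne_zero k hP.ne_zero)).1 h5)
  have hcopQ : ∀ z w : K[X], z ≠ 0 → w ≠ 0 → (∀ P, Irreducible P → P ∣ w → ¬ P ∣ z) →
      IsCoprime z w := by
    intro z w hz _ h2
    refine isCoprime_of_dvd z w (fun h3 => hz h3.1) ?_
    intro P hPu hP0 hPz hPw
    obtain ⟨p, hp, hpP⟩ := WfDvdMonoid.exists_irreducible_factor hPu hP0
    exact h2 p hp (hpP.trans hPw) (hpP.trans hPz)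
  have hy0 : ∀ τ ∈ I, y τ ≠ 0 := by
    intro τ hτ h2
    apply hx0 τ hτ
    rw [hy τ, h2, mul_zero]
  have hyc : ∀ τ ∈ I, IsCoprime (y τ) Q := fun τ hτ => hcopQ _ _ (hy0 τ hτ) hQ (hcop τ hτ)
  have hfc : IsCoprime (f.eval g) Q := hcopQ _ _ hg0 hQ hg
  have h2 : a ^ 2 * (∏ τ ∈ I, mm Q ((G τ).eval g)) * ∏ τ ∈ I, y τ =
      b ^ 2 * c * f.eval g := by
    rw [← h1, mul_assoc, ← Finset.prod_mul_distrib]
    congr 1
    exact Finset.prod_congr rfl fun τ _ => (hy τ).symm
  have hass : Associated (f.eval g) (∏ τ ∈ I, y τ) := by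
    apply associated_of_dvd_dvd
    · have h3 : IsCoprime (f.eval g) (a ^ 2 * (∏ τ ∈ I, mm Q ((G τ).eval g))) := by
        apply IsCoprime.mul_right
        · exact (hfc.of_isCoprime_of_dvd_right haQ).pow_right
        · exact IsCoprime.prod_right fun τ _ => hfc.of_isCoprime_of_dvd_right (mm_dvd_right _ _)
      exact h3.dvd_of_dvd_mul_left (by rw [h2]; exact dvd_mul_left _ _)
    · have h3 : IsCoprime (∏ τ ∈ I, y τ) (b ^ 2 * c) :=
        (IsCoprime.prod_left fun τ hτ => hyc τ hτ).of_isCoprime_of_dvd_right hbc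
      exact h3.dvd_of_dvd_mul_left (by rw [← h2]; exact dvd_mul_left _ _)
  have hM : ∀ τ ∈ I, mobM (mm Q ((G τ).eval g)) (NN τ) ((G τ).eval g) = mob (y τ) := by
    intro τ hτ
    have h3 : (G τ).eval g / mm Q ((G τ).eval g) = y τ := by
      conv_lhs => rw [hy τ]
      have h4 : mm Q (mm Q ((G τ).eval g) * y τ) = mm Q ((G τ).eval g) := by rw [← hy τ]
      rw [h4]
      exact mul_div_cancel_left₀ _ (hmne τ)
    rw [mobM, h3, if_pos]
    refine ⟨mm_dvd_left _ _, ?_⟩
    apply IsCoprime.mul_right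
    · exact (hyc τ hτ).of_isCoprime_of_dvd_right (mm_dvd_right _ _)
    · exact (hyc τ hτ).of_isCoprime_of_dvd_right (hNN τ hτ)
  rw [Finset.prod_congr rfl hM]
  by_cases hsq : Squarefree (f.eval g)
  · rw [mob_assoc hass]
    exact mob_prod I y (hsq.squarefree_of_dvd hass.symm.dvd)
  · have h3 : ∃ P : K[X], Irreducible P ∧ P ^ 2 ∣ f.eval g := by
      have h4 : Squarefree (f.eval g) ↔ ∀ P : K[X], Irreducible P → ¬ P * P ∣ f.eval g :=
        squarefree_iff_irreducible_sq_not_dvd_of_exists_irreducible ⟨X, irreducible_X⟩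
      rw [h4] at hsq
      push Not at hsq
      obtain ⟨P, hP, h5⟩ := hsq
      exact ⟨P, hP, by rwa [sq]⟩
    obtain ⟨P, hP, hP2⟩ := h3
    have hPQ : ¬ P ∣ Q := fun h4 => hg P hP h4 ((dvd_pow_self P two_ne_zero).trans hP2)
    obtain ⟨τ, hτ, h4⟩ := sq_dvd_eval I G f u v a b c N P g hid hsep hP
      (fun h => hPQ (h.trans haQ)) (fun h => hPQ (h.trans
        (((dvd_pow_self b two_ne_zero).mul_right c).trans hbc)))
      (fun h => hPQ (h.trans ((dvd_mul_left c _).trans hbc))) (fun h => hPQ (h.trans hNQ)) hP2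
    have h5 : P ^ 2 ∣ y τ := by
      rw [hy τ] at h4
      exact hP.prime.pow_dvd_of_dvd_mul_left 2 (fun h => hPQ (h.trans (mm_dvd_right _ _))) h4
    rw [mob, if_neg hsq]
    symm
    apply Finset.prod_eq_zero hτ
    rw [mob, if_neg]
    intro h6
    have h7 := h6 P (by rwa [← sq])
    exact hP.not_isUnit h7

/-- the sifted set in a residue class, after multiplication by `M` -/
theorem fiber [Fintype K] {D : ℕ} (n y : ℕ) (M Q ρ : K[X]) (Ps : Finset K[X])
    (β : K[X] → Fin D → K[X]) (hM : M.Monic) (hMQ : M ∣ Q) (hQ : Q ≠ 0)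
    (hne : ((SfB K n 1 0 Ps β).filter (fun g => g % Q = ρ)).Nonempty)
    (hPs : ∀ P ∈ Ps, P.Monic ∧ Irreducible P ∧ P.natDegree ≤ y ∧ ¬ P ∣ 1) :
    SfB K (n + M.natDegree) (M * Q) (M * ρ) (Ps.filter fun P => ¬ P ∣ Q)
      (fun P i => M * β P i) =
      ((SfB K n 1 0 Ps β).filter (fun g => g % Q = ρ)).image (fun g => M * g) := by
  obtain ⟨g₀, hg₀⟩ := hne
  obtain ⟨hg1, hg2⟩ := Finset.mem_filter.1 hg₀
  obtain ⟨-, -, hg3⟩ := Finset.mem_filter.1 hg1
  have hmod : ∀ g : K[X], g % Q = ρ ↔ Q ∣ g - ρ := by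
    intro g
    have hρ : ρ % Q = ρ := by
      rw [← hg2]
      exact mod_eq_self_iff hQ |>.2 (EuclideanDomain.mod_lt g₀ hQ)
    constructor
    · intro h
      rw [← h]
      have h1 : g - g % Q = Q * (g / Q) := by
        have := EuclideanDomain.div_add_mod g Q
        linear_combination -this
      rw [h1]
      exact dvd_mul_right _ _
    · intro h
      rw [← hρ]
      obtain ⟨w, hw⟩ := h
      have h1 : g = ρ + Q * w := by linear_combination hw
      rw [h1, add_mod, (EuclideanDomain.mod_eq_zero).2 (dvd_mul_right Q w), add_zero]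
  ext A
  constructor
  · intro hA
    obtain ⟨hA1, hA2, hA3⟩ := Finset.mem_filter.1 hA
    rw [mem_Mn] at hA1
    have h1 : M ∣ A := by
      have h2 := (dvd_mul_right M Q).trans hA2
      have h3 := dvd_add h2 (dvd_mul_right M ρ)
      rwa [sub_add_cancel] at h3
    obtain ⟨g, rfl⟩ := h1
    have hgm : g.Monic := hM.of_mul_monic_left hA1.1
    have hQg : Q ∣ g - ρ := by
      rw [← mul_sub] at hA2
      exact (mul_dvd_mul_iff_left hM.ne_zero).1 hA2
    refine Finset.mem_image.2 ⟨g, Finset.mem_filter.2 ⟨Finset.mem_filter.2 ⟨?_, one_dvd _, ?_⟩,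
      (hmod g).2 hQg⟩, rfl⟩
    · rw [mem_Mn]
      refine ⟨hgm, ?_⟩
      have h2 := hA1.2
      rw [hM.natDegree_mul hgm] at h2
      omega
    · intro P hP i hd
      by_cases hPQ : P ∣ Q
      · apply hg3 P hP i
        have h2 : P ∣ g₀ - g := by
          have h3 : Q ∣ g₀ - g := by
            have h4 := dvd_sub ((hmod g₀).1 hg2) hQg
            rwa [sub_sub_sub_cancel_right] at h4
          exact hPQ.trans h3
        have h5 := dvd_add h2 hd
        rwa [sub_add_sub_cancel] at h5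
      · apply hA3 P (Finset.mem_filter.2 ⟨hP, hPQ⟩) i
        rw [← mul_sub]
        exact Dvd.dvd.mul_left hd M
  · intro hA
    obtain ⟨g, hg, rfl⟩ := Finset.mem_image.1 hA
    obtain ⟨hg4, hg5⟩ := Finset.mem_filter.1 hg
    obtain ⟨hg6, -, hg7⟩ := Finset.mem_filter.1 hg4
    rw [mem_Mn] at hg6
    refine Finset.mem_filter.2 ⟨?_, ?_, ?_⟩
    · rw [mem_Mn]
      refine ⟨hM.mul hg6.1, ?_⟩
      rw [hM.natDegree_mul hg6.1, hg6.2, add_comm]
    · rw [← mul_sub]
      exact mul_dvd_mul_left M ((hmod g).1 hg5)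
    · intro P hP i hd
      obtain ⟨hP1, hP2⟩ := Finset.mem_filter.1 hP
      rw [← mul_sub] at hd
      rcases (hPs P hP1).2.1.prime.dvd_or_dvd hd with h | h
      · exact hP2 (h.trans hMQ)
      · exact hg7 P hP1 i h

end ParFN

open ParFN in
theorem parF (h : S_parE) : S_parF := by
  intro K _ _ _ f μ D ε hf0 hfs hμ hSq hε
  obtain ⟨u, v, N, hN, hsep⟩ := sep_clear' f hfs
  obtain ⟨r, cp, a', c, δ, hc, hδ, hf⟩ := Pool.Agent.H140.E.intrA K f u v μ N hμ hN hf0 hsep hSq
  obtain ⟨I, cq, G, M, a, b, hMm, ha, hb, hid, hI, hG⟩ := setup K r cp a' f u v c (δ ^ 2 * μ) N hc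
    (mul_ne_zero (pow_ne_zero 2 hδ) hμ) hN hf hf0 hsep
  choose! u' v' NN hSE using hI
  obtain ⟨Q, hQdef⟩ : ∃ Q : K[X], Q = (b ^ 2 * c) * (a * (M * (N * ∏ τ ∈ I, NN τ))) := ⟨_, rfl⟩
  have hNN0 : ∏ τ ∈ I, NN τ ≠ 0 := Finset.prod_ne_zero_iff.2 fun τ hτ => (hSE τ hτ).2.2.1
  have hQ : Q ≠ 0 := by
    rw [hQdef]
    exact mul_ne_zero (mul_ne_zero (pow_ne_zero 2 hb) hc)
      (mul_ne_zero ha (mul_ne_zero hMm.ne_zero (mul_ne_zero hN hNN0)))
  have hbcQ : b ^ 2 * c ∣ Q := by rw [hQdef]; exact dvd_mul_right _ _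
  have haQ : a ∣ Q := by rw [hQdef]; exact (dvd_mul_right _ _).mul_left _
  have hMQ : M ∣ Q := by rw [hQdef]; exact ((dvd_mul_right _ _).mul_left _).mul_left _
  have hNQ : N ∣ Q := by
    rw [hQdef]; exact (((dvd_mul_right _ _).mul_left _).mul_left _).mul_left _
  have hNNQ : ∀ τ ∈ I, NN τ ∣ Q := by
    intro τ hτ
    rw [hQdef]
    exact ((((Finset.dvd_prod_of_mem NN hτ).mul_left _).mul_left _).mul_left _).mul_left _
  have hr : 1 ≤ I.card := by
    rw [Nat.one_le_iff_ne_zero]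
    intro h0
    rw [Finset.card_eq_zero] at h0
    rw [h0, Finset.prod_empty, mul_one] at hid
    have h1 := congrArg natDegree hid
    have hfne : f ≠ 0 := by rintro rfl; simp at hf0
    rw [natDegree_C, natDegree_C_mul (pow_ne_zero 2 hb), natDegree_C_mul hc] at h1
    omega
  obtain ⟨e⟩ : Nonempty (Fin I.card ≃ I) := ⟨I.equivFin.symm⟩
  have key : ∀ ρ : K[X], ∃ κ : ℝ, 0 < κ ∧ ∃ y₀ n₀ : ℕ, ∀ n : ℕ, n₀ ≤ n → ∀ y : ℕ, y₀ ≤ y →
      (y : ℝ) ≤ κ * n → ∀ (ρ' : K[X]) (Ps : Finset K[X]) (β : K[X] → Fin D → K[X]),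
        SieveB y (M * Q) Ps β →
        |∑ A ∈ SfB K n (M * Q) ρ' Ps β, ∏ j : Fin I.card,
          (mobM (mm Q ((G (e j : K[X])).eval ρ)) (NN (e j : K[X]))
            ((PhE (cq (e j : K[X]))).eval (A + ((0 : K[X]) ^ 2 + X * (e j : K[X]) ^ 2))) : ℝ)| ≤
            ε * (SfB K n (M * Q) ρ' Ps β).card := fun ρ =>
    h K I.card (fun j => cq (e j : K[X])) (fun j => u' (e j : K[X])) (fun j => v' (e j : K[X]))
      (fun j => NN (e j : K[X])) (fun j => mm Q ((G (e j : K[X])).eval ρ)) (fun _ => 0)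
      (fun j => (e j : K[X])) D (M * Q) ε hr (fun j => hSE _ (e j).2) (fun j => mm_monic hQ)
      (fun i j hij => e.injective (Subtype.ext hij)) (mul_ne_zero hMm.ne_zero hQ) hε
  choose κ hκ y₀ n₀ hmain using key
  -- the residues
  obtain ⟨R, hR⟩ : ∃ R : Finset K[X], ∀ ρ : K[X], ρ ∈ R ↔ ρ.degree < Q.degree := by
    have hfin : {ρ : K[X] | ρ.degree < Q.degree}.Finite := by
      rw [degree_eq_natDegree hQ]
      have h1 : {ρ : K[X] | ρ.degree < (Q.natDegree : WithBot ℕ)} =
          Set.range (fun w : degreeLT K Q.natDegree => (w : K[X])) := by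
        ext ρ
        constructor
        · intro h2
          exact ⟨⟨ρ, mem_degreeLT.2 h2⟩, rfl⟩
        · rintro ⟨w, rfl⟩
          exact mem_degreeLT.1 w.2
      rw [h1]
      have : Finite (degreeLT K Q.natDegree) :=
        Finite.of_equiv _ (degreeLTEquiv K Q.natDegree).toEquiv.symm
      exact Set.finite_range _
    exact ⟨hfin.toFinset, fun ρ => by rw [Set.Finite.mem_toFinset]; rfl⟩
  have h0R : (0 : K[X]) ∈ R := by
    rw [hR, degree_zero, bot_lt_iff_ne_bot]
    exact degree_ne_bot.2 hQ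
  obtain ⟨ρ₀, hρ₀, hmin⟩ := R.exists_min_image κ ⟨0, h0R⟩
  refine ⟨κ ρ₀, hκ ρ₀, max (R.sup y₀) (max Q.natDegree 1), R.sup n₀, ?_⟩
  intro n hn y hy hyn Ps β hS hroots
  obtain ⟨S, hSdef⟩ : ∃ S : Finset K[X], S = SfB K n 1 0 Ps β := ⟨_, rfl⟩
  have hval : ∀ g ∈ S, ∀ P : K[X], Irreducible P → P.natDegree ≤ y → ¬ P ∣ f.eval g := by
    intro g hg P hP hPd hPf
    have h5 : Associated (normalize P) P := normalize_associated P
    have h6 : (normalize P).natDegree = P.natDegree :=
      natDegree_eq_of_degree_eq (degree_eq_degree_of_associated h5)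
    obtain ⟨h7, i, h8⟩ := hroots (normalize P) (monic_normalize hP.ne_zero)
      ((h5.irreducible_iff).2 hP) (by rw [h6]; exact hPd) g (h5.dvd.trans hPf)
    rw [hSdef] at hg
    exact (Finset.mem_filter.1 hg).2.2 _ h7 i h8
  have hy1 : 1 ≤ y := le_trans (le_max_right _ _) ((le_max_right _ _).trans hy)
  have hyQ : Q.natDegree ≤ y := le_trans (le_max_left _ _) ((le_max_right _ _).trans hy)
  have hval0 : ∀ g ∈ S, f.eval g ≠ 0 := by
    intro g hg h1
    apply hval g hg X irreducible_X (by rw [natDegree_X]; exact hy1)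
    rw [h1]
    exact dvd_zero _
  have hvalQ : ∀ g ∈ S, ∀ P, Irreducible P → P ∣ Q → ¬ P ∣ f.eval g := by
    intro g hg P hP hPQ
    exact hval g hg P hP ((natDegree_le_of_dvd hPQ hQ).trans hyQ)
  have hfib : ∀ ρ ∈ R, |∑ g ∈ S.filter (fun g => g % Q = ρ), (mob (f.eval g) : ℝ)| ≤
      ε * (S.filter (fun g => g % Q = ρ)).card := by
    intro ρ hρ
    rcases Finset.eq_empty_or_nonempty (S.filter (fun g => g % Q = ρ)) with he | hne
    · rw [he]; simp
    · rw [hSdef] at hne
      have hF := fiber n y M Q ρ Ps β hMm hMQ hQ hne hS.1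
      rw [← hSdef] at hF
      have hinj : Function.Injective (fun g : K[X] => M * g) :=
        fun x z hxz => mul_left_cancel₀ hMm.ne_zero hxz
      have h1 := hmain ρ (n + M.natDegree) (by
          have := Finset.le_sup (f := n₀) hρ
          omega) y (by
          have h2 := Finset.le_sup (f := y₀) hρ
          exact h2.trans ((le_max_left _ _).trans hy)) (by
          have h2 := hmin ρ hρ
          have h3 := hκ ρ₀
          push_cast
          have h4 : (0 : ℝ) ≤ M.natDegree := Nat.cast_nonneg _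
          have h5 : (0 : ℝ) ≤ n := Nat.cast_nonneg _
          nlinarith [hκ ρ, mul_nonneg (hκ ρ).le h4, mul_le_mul_of_nonneg_right h2 h5])
        (M * ρ) (Ps.filter fun P => ¬ P ∣ Q) (fun P i => M * β P i) (by
          constructor
          · intro P hP
            obtain ⟨hP1, hP2⟩ := Finset.mem_filter.1 hP
            obtain ⟨h2, h3, h4, -⟩ := hS.1 P hP1
            refine ⟨h2, h3, h4, fun h5 => ?_⟩
            rcases h3.prime.dvd_or_dvd h5 with h6 | h6
            · exact hP2 (h6.trans hMQ)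
            · exact hP2 h6
          · intro P hP
            obtain ⟨hP1, hP2⟩ := Finset.mem_filter.1 hP
            obtain ⟨x, hx⟩ := hS.2 P hP1
            refine ⟨M * x, fun i hd => ?_⟩
            rw [← mul_sub] at hd
            rcases (hS.1 P hP1).2.1.prime.dvd_or_dvd hd with h6 | h6
            · exact hP2 (h6.trans hMQ)
            · exact hx i h6)
      rw [hF, Finset.sum_image (fun x _ z _ hxz => hinj hxz),
        Finset.card_image_of_injective _ hinj] at h1
      refine le_trans (le_of_eq ?_) h1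
      congr 1
      refine Finset.sum_congr rfl fun g hg => ?_
      obtain ⟨hg1, hg2⟩ := Finset.mem_filter.1 hg
      rw [value I G NN f u v a b c N Q g hid hsep hQ hbcQ haQ hNQ hNNQ (hval0 g hg1)
        (hvalQ g hg1)]
      push_cast
      rw [← Finset.prod_coe_sort, ← e.prod_comp]
      refine Finset.prod_congr rfl fun j _ => ?_
      have h2 : mm Q ((G (e j : K[X])).eval ρ) = mm Q ((G (e j : K[X])).eval g) := by
        apply mm_congr hQ
        refine Dvd.dvd.trans ?_ (sub_dvd_eval_sub ρ g _)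
        rw [← hg2]
        have h3 : g % Q - g = Q * (-(g / Q)) := by
          have := EuclideanDomain.div_add_mod g Q
          linear_combination this
        rw [h3]
        exact dvd_mul_right _ _
      rw [h2, hG]
      have h3 : M * g + ((0 : K[X]) ^ 2 + X * (e j : K[X]) ^ 2) = M * g + X * (e j : K[X]) ^ 2 := by
        ring
      rw [h3]
  have hmaps : ∀ g ∈ S, g % Q ∈ R := fun g _ => (hR _).2 (EuclideanDomain.mod_lt g hQ)
  rw [← hSdef, ← Finset.sum_fiberwise_of_maps_to hmaps,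
    Finset.card_eq_sum_card_fiberwise hmaps]
  push_cast
  rw [Finset.mul_sum]
  exact (Finset.abs_sum_le_sum_abs _ _).trans (Finset.sum_le_sum hfib)

end Pool.Agent.H140.PE
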