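import Mathlib
import Pool.Agent.H140.PE.Stm
import Pool.Agent.H140.E.MobE
import Pool.Agent.H140.E.IntrA

/-!
# Task SQF: values divisible by the square of a prime of degree larger than `y`, explicit bound

By helper588; adapted from `E/MobE.lean` (helper627).
-/

set_option autoImplicit false

namespace Pool.Agent.H140.PE

open Polynomial
open Pool.Agent.H985.Chow (mob MD)
open Pool.Agent.H140.E (PhE SepE S_cntE S_bigE)
open Pool.Agent.H140.E.MobE (setup sq_dvd_eval)
open Pool.Agent.H140.Q.TailMAux (MD_finite MD_ncard)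

namespace SqfL

/-- clearing denominators in the relation of separability -/
theorem sep_clear {K : Type} [Field K] (f : K[X][X])
    (h : (f.map (algebraMap K[X] (RatFunc K))).Separable) :
    ∃ (u v : K[X][X]) (N : K[X]), N ≠ 0 ∧ u * f + v * derivative f = C N := by
  obtain ⟨a, b, hab⟩ := h
  obtain ⟨x, hx, hxa⟩ := IsLocalization.integerNormalization_spec (nonZeroDivisors K[X]) a
  obtain ⟨y, hy, hyb⟩ := IsLocalization.integerNormalization_spec (nonZeroDivisors K[X]) b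
  set A := IsLocalization.integerNormalization (nonZeroDivisors K[X]) a
  set B := IsLocalization.integerNormalization (nonZeroDivisors K[X]) b
  refine ⟨C y * A, C x * B, x * y,
    mul_ne_zero (nonZeroDivisors.ne_zero hx) (nonZeroDivisors.ne_zero hy), ?_⟩
  apply map_injective (algebraMap K[X] (RatFunc K))
    (IsFractionRing.injective K[X] (RatFunc K))
  rw [Polynomial.map_add, Polynomial.map_mul, Polynomial.map_mul, Polynomial.map_mul,
    Polynomial.map_mul, hxa, hyb, map_C, map_C, map_C, ← derivative_map, Algebra.smul_def,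
    Algebra.smul_def, map_mul, C_mul]
  have e1 : ∀ r : K[X], algebraMap K[X] (RatFunc K)[X] r =
      C (algebraMap K[X] (RatFunc K) r) := fun r => by
    rw [IsScalarTower.algebraMap_apply K[X] (RatFunc K) (RatFunc K)[X],
      Polynomial.algebraMap_eq]
  rw [e1, e1]
  calc _ = C (algebraMap K[X] (RatFunc K) x) * C (algebraMap K[X] (RatFunc K) y) *
        (a * f.map (algebraMap K[X] (RatFunc K)) +
          b * derivative (f.map (algebraMap K[X] (RatFunc K)))) := by ring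
    _ = _ := by rw [hab, mul_one]

/-- the geometric sum -/
theorem geo (x : ℝ) (hx0 : 0 ≤ x) (hx1 : x ≤ 1 / 2) (y m : ℕ) :
    ∑ d ∈ Finset.Ioc y m, x ^ d ≤ x ^ y := by
  rcases le_or_gt m y with h | h
  · rw [Finset.Ioc_eq_empty (by omega), Finset.sum_empty]
    positivity
  · have key : ∀ k : ℕ, ∑ d ∈ Finset.Ioc y (y + k), x ^ d + x ^ (y + k) ≤ x ^ y := by
      intro k
      induction k with
      | zero => simp
      | succ k ih =>
        rw [← Nat.add_assoc, Finset.sum_Ioc_succ_top (by omega)]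
        have h1 : x ^ (y + k + 1) + x ^ (y + k + 1) ≤ x ^ (y + k) := by
          rw [pow_succ]
          have : 0 ≤ x ^ (y + k) := by positivity
          nlinarith
        linarith
    have h2 := key (m - y)
    rw [Nat.add_sub_cancel' h.le] at h2
    have : 0 ≤ x ^ m := by positivity
    linarith

open Classical in
/-- squares of large primes, explicit bound -/
theorem tail2 (hcnt : S_cntE) (hbig0 : S_bigE) (K : Type) [Field K] [Fintype K] [CharP K 2]
    (cp u v : K[X][X]) (N C0 : K[X]) (hS0 : SepE cp u v N) :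
    ∃ (B : ℝ) (n₀ : ℕ), 0 ≤ B ∧ ∀ n y : ℕ, n₀ ≤ n → n₀ ≤ y →
      ((MD K n ∩ {g | ∃ P : K[X], Irreducible P ∧ y < P.natDegree ∧
        P ^ 2 ∣ (PhE cp).eval (g + C0)}).ncard : ℝ) ≤
          B * ((Fintype.card K : ℝ) ^ n / (Fintype.card K : ℝ) ^ y +
            (Fintype.card K : ℝ) ^ (n / 2)) := by
  have hN : N ≠ 0 := hS0.2.2.1
  have hd0 : (0 : ℝ) ≤ (cp.natDegree : ℝ) := Nat.cast_nonneg _
  have hq2 : (2 : ℝ) ≤ (Fintype.card K : ℝ) := by
    have : 2 ≤ Fintype.card K := Fintype.one_lt_card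
    exact_mod_cast this
  obtain ⟨q, hq⟩ : ∃ q : ℝ, q = (Fintype.card K : ℝ) := ⟨_, rfl⟩
  have hq2' : 2 ≤ q := by rw [hq]; exact hq2
  have hq0 : 0 < q := by linarith
  obtain ⟨B, nb, hbig⟩ := hbig0 K cp u v N C0 hS0
  refine ⟨(cp.natDegree : ℝ) + B, max nb (max N.natDegree 1), by positivity,
    fun n y hn hy => ?_⟩
  have hn1 : nb ≤ n := by omega
  -- everything as finsets
  obtain ⟨G, hG⟩ : ∃ G : Finset K[X], G = (MD_finite (K := K) n).toFinset := ⟨_, rfl⟩
  have hcard : ∀ (p : K[X] → Prop) [DecidablePred p],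
      (MD K n ∩ {g | p g}).ncard = (G.filter p).card := by
    intro p _
    rw [← Set.ncard_coe_finset]
    congr 1
    ext g
    simp [hG]
  rw [hcard, ← hq]
  obtain ⟨Bs, hBs⟩ : ∃ Bs : Finset K[X], Bs = (Finset.Ioc y (n / 2)).biUnion fun d =>
    ((MD_finite (K := K) d).toFinset.filter Irreducible).biUnion fun P =>
      G.filter fun g => P ^ 2 ∣ (PhE cp).eval (g + C0) := ⟨_, rfl⟩
  obtain ⟨Cs, hCs⟩ : ∃ Cs : Finset K[X], Cs = G.filter fun g => ∃ P : K[X], Irreducible P ∧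
    n < 2 * P.natDegree ∧ P ^ 2 ∣ (PhE cp).eval (g + C0) := ⟨_, rfl⟩
  have hsub : (G.filter fun g => ∃ P : K[X], Irreducible P ∧ y < P.natDegree ∧
        P ^ 2 ∣ (PhE cp).eval (g + C0)) ⊆ Bs ∪ Cs := by
    intro g hg
    obtain ⟨hgG, P, h2, hlt, h3⟩ := Finset.mem_filter.1 hg
    rw [Finset.mem_union]
    by_cases h4 : n < 2 * P.natDegree
    · right
      rw [hCs]
      exact Finset.mem_filter.2 ⟨hgG, P, h2, h4, h3⟩
    · left
      rw [hBs, Finset.mem_biUnion]
      refine ⟨P.natDegree, Finset.mem_Ioc.2 ⟨hlt, by omega⟩, ?_⟩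
      rw [Finset.mem_biUnion]
      have h5 : Associated (normalize P) P := normalize_associated P
      refine ⟨normalize P, Finset.mem_filter.2 ⟨?_, (h5.irreducible_iff).2 h2⟩,
        Finset.mem_filter.2 ⟨hgG, ?_⟩⟩
      · rw [Set.Finite.mem_toFinset]
        exact ⟨monic_normalize h2.ne_zero, natDegree_eq_of_degree_eq
          (degree_eq_degree_of_associated h5)⟩
      · exact ((h5.pow_pow (n := 2)).dvd).trans h3
  have hBb : (Bs.card : ℝ) ≤ (cp.natDegree : ℝ) * (q ^ n / q ^ y) := by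
    have h1 : ∀ d ∈ Finset.Ioc y (n / 2),
        ((((MD_finite (K := K) d).toFinset.filter Irreducible).biUnion fun P =>
          G.filter fun g => P ^ 2 ∣ (PhE cp).eval (g + C0)).card : ℝ) ≤
            (cp.natDegree : ℝ) * q ^ n * (1 / q) ^ d := by
      intro d hd
      obtain ⟨hd1, hd2⟩ := Finset.mem_Ioc.1 hd
      have h2 : ∀ P ∈ (MD_finite (K := K) d).toFinset.filter Irreducible,
          ((G.filter fun g => P ^ 2 ∣ (PhE cp).eval (g + C0)).card : ℝ) ≤
            (cp.natDegree : ℝ) * q ^ (n - 2 * d) := by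
        intro P hP
        obtain ⟨hPm, hPi⟩ := Finset.mem_filter.1 hP
        rw [Set.Finite.mem_toFinset] at hPm
        have h3 := hcnt K cp u v N C0 P 0 2 n hS0 hPi (by
          intro hdv
          rw [zero_add, pow_one] at hdv
          have h4 := natDegree_le_of_dvd (hPi.prime.dvd_of_dvd_pow hdv) hN
          rw [hPm.2] at h4
          omega) (by omega) (by rw [hPm.2]; omega)
        rw [hcard, hPm.2, Nat.sub_zero, zero_mul, pow_zero, mul_one] at h3
        rw [hq]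
        exact_mod_cast h3
      have h5 : (((MD_finite (K := K) d).toFinset.filter Irreducible).card : ℝ) ≤ q ^ d := by
        have h6 : ((MD_finite (K := K) d).toFinset.filter Irreducible).card ≤
            Fintype.card K ^ d :=
          (Finset.card_filter_le _ _).trans (by
            rw [← Set.ncard_eq_toFinset_card _ (MD_finite (K := K) d)]
            exact MD_ncard d)
        rw [hq]
        exact_mod_cast h6
      calc ((((MD_finite (K := K) d).toFinset.filter Irreducible).biUnion fun P =>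
          G.filter fun g => P ^ 2 ∣ (PhE cp).eval (g + C0)).card : ℝ)
          ≤ ∑ P ∈ (MD_finite (K := K) d).toFinset.filter Irreducible,
            ((G.filter fun g => P ^ 2 ∣ (PhE cp).eval (g + C0)).card : ℝ) := by
            exact_mod_cast Finset.card_biUnion_le
        _ ≤ ∑ P ∈ (MD_finite (K := K) d).toFinset.filter Irreducible,
            (cp.natDegree : ℝ) * q ^ (n - 2 * d) :=
            Finset.sum_le_sum h2
        _ = (((MD_finite (K := K) d).toFinset.filter Irreducible).card : ℝ) *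
            ((cp.natDegree : ℝ) * q ^ (n - 2 * d)) := by rw [Finset.sum_const, nsmul_eq_mul]
        _ ≤ q ^ d * ((cp.natDegree : ℝ) * q ^ (n - 2 * d)) :=
            mul_le_mul_of_nonneg_right h5 (by positivity)
        _ = (cp.natDegree : ℝ) * q ^ (n - d) := by
            have h7 : n - d = d + (n - 2 * d) := by omega
            rw [h7, pow_add]
            ring
        _ = (cp.natDegree : ℝ) * q ^ n * (1 / q) ^ d := by
            have h7 : q ^ n = q ^ (n - d) * q ^ d := by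
              rw [← pow_add]
              congr 1
              omega
            rw [h7, one_div, inv_pow, mul_assoc, mul_assoc,
              mul_inv_cancel₀ (pow_ne_zero d hq0.ne'), mul_one]
    calc (Bs.card : ℝ) ≤ ∑ d ∈ Finset.Ioc y (n / 2),
          ((((MD_finite (K := K) d).toFinset.filter Irreducible).biUnion fun P =>
          G.filter fun g => P ^ 2 ∣ (PhE cp).eval (g + C0)).card : ℝ) := by
          rw [hBs]
          exact_mod_cast Finset.card_biUnion_le
      _ ≤ ∑ d ∈ Finset.Ioc y (n / 2), (cp.natDegree : ℝ) * q ^ n * (1 / q) ^ d :=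
          Finset.sum_le_sum h1
      _ = (cp.natDegree : ℝ) * q ^ n * ∑ d ∈ Finset.Ioc y (n / 2), (1 / q) ^ d := by
          rw [Finset.mul_sum]
      _ ≤ (cp.natDegree : ℝ) * q ^ n * (1 / q) ^ y := by
          refine mul_le_mul_of_nonneg_left (geo _ (by positivity) ?_ _ _) (by positivity)
          exact one_div_le_one_div_of_le (by norm_num) hq2'
      _ = (cp.natDegree : ℝ) * (q ^ n / q ^ y) := by
          rw [one_div, inv_pow, mul_assoc, div_eq_mul_inv]
  have hCb : (Cs.card : ℝ) ≤ B * q ^ (n / 2) := by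
    have h1 := hbig n hn1
    rw [hcard] at h1
    rw [hq, hCs]
    exact_mod_cast h1
  have htot : ((G.filter fun g => ∃ P : K[X], Irreducible P ∧ y < P.natDegree ∧
        P ^ 2 ∣ (PhE cp).eval (g + C0)).card : ℝ) ≤ (Bs.card : ℝ) + (Cs.card : ℝ) := by
    have h1 := (Finset.card_le_card hsub).trans (Finset.card_union_le _ _)
    exact_mod_cast h1
  have hp1 : 0 ≤ q ^ n / q ^ y := by positivity
  have hp2 : 0 ≤ q ^ (n / 2) := by positivity
  have hB0 : (0 : ℝ) ≤ B := Nat.cast_nonneg _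
  calc _ ≤ (Bs.card : ℝ) + (Cs.card : ℝ) := htot
    _ ≤ (cp.natDegree : ℝ) * (q ^ n / q ^ y) + B * q ^ (n / 2) := add_le_add hBb hCb
    _ ≤ ((cp.natDegree : ℝ) + B) * (q ^ n / q ^ y + q ^ (n / 2)) := by
        have h3 := mul_nonneg hd0 hp2
        have h4 := mul_nonneg hB0 hp1
        nlinarith

open Classical in
/-- the values of `f` divisible by the square of a large prime, explicit bound -/
theorem tail3 (hcnt : S_cntE) (hbig : S_bigE) (K : Type) [Field K] [Fintype K] [CharP K 2] (r : ℕ)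
    (cp : Fin r → K[X][X]) (Cc : Fin r → K[X]) (f u v : K[X][X]) (c μ N : K[X]) (hc : c ≠ 0)
    (hμ : μ ≠ 0) (hN : N ≠ 0)
    (hf : C c * f = ∏ j, ((cp j).map (frobenius K[X] 2)).comp (C μ * X + C (Cc j)))
    (hdeg : 0 < f.natDegree) (hsep : u * f + v * derivative f = C N) :
    ∃ (B : ℝ) (n₀ : ℕ), ∀ n y : ℕ, n₀ ≤ n → n₀ ≤ y →
      ((MD K n ∩ {g | ∃ P : K[X], Irreducible P ∧ y < P.natDegree ∧
        P ^ 2 ∣ f.eval g}).ncard : ℝ) ≤ B * ((Fintype.card K : ℝ) ^ n / (Fintype.card K : ℝ) ^ y +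
            (Fintype.card K : ℝ) ^ (n / 2)) := by
  obtain ⟨I, cq, G, M, a, b, hMm, ha, hb, hid, hI, hG⟩ :=
    setup K r cp Cc f u v c μ N hc hμ hN hf hdeg hsep
  obtain ⟨q, hq⟩ : ∃ q : ℝ, q = (Fintype.card K : ℝ) := ⟨_, rfl⟩
  have hq0 : 0 < q := by
    rw [hq]
    exact_mod_cast Fintype.card_pos
  have hq1 : 1 ≤ q := by
    rw [hq]
    exact_mod_cast Fintype.card_pos
  obtain ⟨d, hd⟩ : ∃ d : ℕ, d = M.natDegree := ⟨_, rfl⟩
  have h1 : ∀ τ : K[X], ∃ (B : ℝ) (n₀ : ℕ), 0 ≤ B ∧ (τ ∈ I → ∀ n y : ℕ, n₀ ≤ n → n₀ ≤ y →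
      ((MD K n ∩ {g | ∃ P : K[X], Irreducible P ∧ y < P.natDegree ∧
        P ^ 2 ∣ (PhE (cq τ)).eval (g + X * τ ^ 2)}).ncard : ℝ) ≤
          B * ((Fintype.card K : ℝ) ^ n / (Fintype.card K : ℝ) ^ y +
            (Fintype.card K : ℝ) ^ (n / 2))) := by
    intro τ
    by_cases hτ : τ ∈ I
    · obtain ⟨u', v', N', h2⟩ := hI τ hτ
      obtain ⟨B, n₀, hB, h3⟩ := tail2 hcnt hbig K (cq τ) u' v' N' (X * τ ^ 2) h2
      exact ⟨B, n₀, hB, fun _ => h3⟩
    · exact ⟨0, 0, le_rfl, fun h => absurd h hτ⟩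
  choose B n₀ hB0 hB using h1
  refine ⟨∑ τ ∈ I, B τ * q ^ d, I.sup n₀ + (1 + a.natDegree + b.natDegree + c.natDegree +
    N.natDegree), fun n y hn hy => ?_⟩
  have hndvd : ∀ P z : K[X], z ≠ 0 → z.natDegree ≤ y → y < P.natDegree → ¬ P ∣ z := by
    intro P z hz h3 h4 h5
    have h6 := natDegree_le_of_dvd h5 hz
    omega
  have hsub : (MD K n ∩ {g | ∃ P : K[X], Irreducible P ∧ y < P.natDegree ∧ P ^ 2 ∣ f.eval g}) ⊆
      ⋃ τ ∈ I, (MD K n ∩ {g | ∃ P : K[X], Irreducible P ∧ y < P.natDegree ∧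
        P ^ 2 ∣ (PhE (cq τ)).eval (M * g + X * τ ^ 2)}) := by
    rintro g ⟨hg, P, hP, hPd, hPf⟩
    obtain ⟨τ, hτ, h3⟩ := sq_dvd_eval I G f u v a b c N P g hid hsep hP
      (hndvd P a ha (by omega) hPd) (hndvd P b hb (by omega) hPd) (hndvd P c hc (by omega) hPd)
      (hndvd P N hN (by omega) hPd) hPf
    rw [hG] at h3
    exact Set.mem_biUnion hτ ⟨hg, P, hP, hPd, h3⟩
  have hfin : ∀ p : K[X] → Prop, (MD K n ∩ {g | p g}).Finite := fun p =>
    (MD_finite (K := K) n).subset Set.inter_subset_left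
  have h3 : ∀ τ ∈ I, ((MD K n ∩ {g | ∃ P : K[X], Irreducible P ∧ y < P.natDegree ∧
        P ^ 2 ∣ (PhE (cq τ)).eval (M * g + X * τ ^ 2)}).ncard : ℝ) ≤
          B τ * q ^ d * (q ^ n / q ^ y + q ^ (n / 2)) := by
    intro τ hτ
    have h4 : n₀ τ ≤ I.sup n₀ := Finset.le_sup hτ
    have h5 := hB τ hτ (n + d) y (by omega) (by omega)
    rw [← hq] at h5
    have h6 := Set.ncard_le_ncard_of_injOn
      (s := MD K n ∩ {g | ∃ P : K[X], Irreducible P ∧ y < P.natDegree ∧
        P ^ 2 ∣ (PhE (cq τ)).eval (M * g + X * τ ^ 2)})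
      (t := MD K (n + d) ∩ {g | ∃ P : K[X], Irreducible P ∧ y < P.natDegree ∧
        P ^ 2 ∣ (PhE (cq τ)).eval (g + X * τ ^ 2)}) (fun g => M * g)
      (by
        rintro g ⟨⟨hg1, hg2⟩, hg3⟩
        refine ⟨⟨hMm.mul hg1, ?_⟩, hg3⟩
        rw [hMm.natDegree_mul hg1, hg2, hd, add_comm])
      (fun x _ y _ hxy => mul_left_cancel₀ hMm.ne_zero hxy)
      ((MD_finite (K := K) (n + d)).subset Set.inter_subset_left)
    have h7 : q ^ ((n + d) / 2) ≤ q ^ d * q ^ (n / 2) := by
      rw [← pow_add]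
      exact pow_le_pow_right₀ hq1 (by omega)
    calc ((MD K n ∩ {g | ∃ P : K[X], Irreducible P ∧ y < P.natDegree ∧
        P ^ 2 ∣ (PhE (cq τ)).eval (M * g + X * τ ^ 2)}).ncard : ℝ)
        ≤ ((MD K (n + d) ∩ {g | ∃ P : K[X], Irreducible P ∧ y < P.natDegree ∧
        P ^ 2 ∣ (PhE (cq τ)).eval (g + X * τ ^ 2)}).ncard : ℝ) := by exact_mod_cast h6
      _ ≤ B τ * (q ^ (n + d) / q ^ y + q ^ ((n + d) / 2)) := h5
      _ ≤ B τ * (q ^ (n + d) / q ^ y + q ^ d * q ^ (n / 2)) :=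
          mul_le_mul_of_nonneg_left (add_le_add_right h7 _) (hB0 τ)
      _ = B τ * q ^ d * (q ^ n / q ^ y + q ^ (n / 2)) := by
          rw [pow_add]
          ring
  have h7 : (MD K n ∩ {g | ∃ P : K[X], Irreducible P ∧ y < P.natDegree ∧
      P ^ 2 ∣ f.eval g}).ncard ≤ ∑ τ ∈ I, (MD K n ∩ {g | ∃ P : K[X], Irreducible P ∧
        y < P.natDegree ∧ P ^ 2 ∣ (PhE (cq τ)).eval (M * g + X * τ ^ 2)}).ncard :=
    (Set.ncard_le_ncard hsub (Set.Finite.biUnion I.finite_toSet fun τ _ => hfin _)).trans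
      (Finset.set_ncard_biUnion_le I _)
  rw [← hq]
  calc _ ≤ ((∑ τ ∈ I, (MD K n ∩ {g | ∃ P : K[X], Irreducible P ∧
        y < P.natDegree ∧ P ^ 2 ∣ (PhE (cq τ)).eval (M * g + X * τ ^ 2)}).ncard : ℕ) : ℝ) := by
        exact_mod_cast h7
    _ = ∑ τ ∈ I, ((MD K n ∩ {g | ∃ P : K[X], Irreducible P ∧
        y < P.natDegree ∧ P ^ 2 ∣ (PhE (cq τ)).eval (M * g + X * τ ^ 2)}).ncard : ℝ) := by
        push_cast
        rfl
    _ ≤ ∑ τ ∈ I, B τ * q ^ d * (q ^ n / q ^ y + q ^ (n / 2)) := Finset.sum_le_sum h3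
    _ = (∑ τ ∈ I, B τ * q ^ d) * (q ^ n / q ^ y + q ^ (n / 2)) := by rw [Finset.sum_mul]

end SqfL

theorem sqF (hcnt : S_cntE) (hbig : S_bigE) : S_sqF := by
  intro K _ _ _ f μ hd hs hμ hr
  obtain ⟨u, v, N, hN, hsep⟩ := SqfL.sep_clear f hs
  obtain ⟨r, cp, a, c, δ, hc, hδ, hf⟩ := Pool.Agent.H140.E.intrA K f u v μ N hμ hN hd hsep hr
  obtain ⟨B, n₀, hB⟩ := SqfL.tail3 hcnt hbig K r cp a f u v c (δ ^ 2 * μ) N hc
    (mul_ne_zero (pow_ne_zero 2 hδ) hμ) hN hf hd hsep
  refine ⟨⌈B⌉₊, n₀, fun n y hn hy => (hB n y hn hy).trans ?_⟩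
  refine mul_le_mul_of_nonneg_right (Nat.le_ceil B) ?_
  positivity

end Pool.Agent.H140.PE
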