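import Mathlib
import Pool.Agent.H140.PE.Fib
import Pool.Agent.H140.PE.Low
import Pool.Agent.H140.PE.Par
import Pool.Agent.H140.PE.ParF
import Pool.Agent.H140.PE.Sqf
import Pool.Agent.H140.PE.Few
import Pool.Agent.H17.PE.Patt
import Pool.Agent.H140.E.Final
import Pool.Agent.H183.Par.BRUN
import Pool.Agent.H675.Par.SW
import Pool.Agent.H627.Par.TypV

/-!
# Parity in sifted sets of polynomial values: assembly
-/

set_option autoImplicit false

namespace Pool.Agent.H140.PE

open Pool.Agent.H140.E (s_win5E cntE bigE)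
open Pool.Agent.H985.Par (S_sw)

theorem s_sw : S_sw := Pool.Agent.H675.Par.sw Pool.Agent.H183.Par.brun

theorem s_fibE : S_fibE := fibE s_win5E (Pool.Agent.H627.Par.typV Pool.Agent.H985.KP.typ2)

theorem s_lowB : S_lowB := lowB s_sw

theorem s_parE : S_parE := parE s_fibE s_sw s_lowB

theorem s_parF : S_parF := parF s_parE

theorem s_sqF : S_sqF := sqF cntE bigE

theorem s_patP : S_patP := Pool.Agent.H17.PE.patP s_parF s_sqF s_lowB

theorem s_fewP : S_fewP := fewP s_patP s_lowB

end Pool.Agent.H140.PE
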