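import Mathlib
import Pool.Agent.H140.PE.Final
import Pool.Agent.H140.E.Cor

/-!
# Parity in sifted sets of polynomial values: examples
-/

set_option autoImplicit false

namespace Pool.Agent.H140.PE

open Polynomial
open Field (isSeparable_mul)
open Pool.Agent.H140.E (odd_eq_one two_eq_zero')

variable {K : Type} [Field K] [CharP K 2]

lemma ratFunc_two : (2 : RatFunc K) = 0 := by
  have h : (2 : K) = 0 := CharP.cast_eq_zero K 2
  have h2 : (algebraMap K (RatFunc K)) 2 = 0 := by rw [h, map_zero]
  rwa [map_ofNat] at h2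

lemma om_two : (2 : (AlgebraicClosure (RatFunc K))) = 0 := by
  have h2 : (algebraMap (RatFunc K) (AlgebraicClosure (RatFunc K))) 2 = 0 := by rw [ratFunc_two, map_zero]
  rwa [map_ofNat] at h2

omit [CharP K 2] in
lemma amap (a : K[X]) : algebraMap (RatFunc K) (AlgebraicClosure (RatFunc K)) (algebraMap K[X] (RatFunc K) a) =
    algebraMap K[X] (AlgebraicClosure (RatFunc K)) a := (IsScalarTower.algebraMap_apply K[X] (RatFunc K) (AlgebraicClosure (RatFunc K)) a).symm

omit [CharP K 2] in
lemma map_ne {a : K[X]} (ha : a ≠ 0) : algebraMap K[X] (RatFunc K) a ≠ 0 := by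
  rw [Ne, FaithfulSMul.algebraMap_eq_zero_iff]
  exact ha

omit [CharP K 2] in
/-- roots of a separable polynomial are separable -/
lemma sep_root {f : K[X][X]} (hs : (f.map (algebraMap K[X] (RatFunc K))).Separable) {θ : (AlgebraicClosure (RatFunc K))}
    (hθ : aeval θ f = 0) : IsSeparable (RatFunc K) θ := by
  refine Polynomial.Separable.of_dvd hs (minpoly.dvd _ _ ?_)
  rwa [aeval_map_algebraMap]

omit [CharP K 2] in
lemma sep_pow {θ : (AlgebraicClosure (RatFunc K))} (h : IsSeparable (RatFunc K) θ) (n : ℕ) :
    IsSeparable (RatFunc K) (θ ^ n) := by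
  induction n with
  | zero =>
    rw [pow_zero, ← map_one (algebraMap (RatFunc K) (AlgebraicClosure (RatFunc K)))]
    exact isSeparable_algebraMap _
  | succ n ih =>
    rw [pow_succ]
    exact isSeparable_mul ih h

theorem sep_quad (α : K[X]) {β : K[X]} (γ : K[X]) (hβ : β ≠ 0) :
    ((C α * X ^ 2 + C β * X + C γ : K[X][X]).map (algebraMap K[X] (RatFunc K))).Separable := by
  rw [separable_def, derivative_map]
  have h2 := two_eq_zero' (K := K)
  have hd : derivative (C α * X ^ 2 + C β * X + C γ : K[X][X]) = C β := by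
    simp only [derivative_add, derivative_mul, derivative_C, derivative_X, derivative_X_pow]
    simp only [Nat.cast_ofNat, map_ofNat]
    linear_combination (C α * X) * h2
  rw [hd, map_C]
  refine ⟨0, C (algebraMap K[X] (RatFunc K) β)⁻¹, ?_⟩
  rw [zero_mul, zero_add, ← C_mul, inv_mul_cancel₀ (map_ne hβ), C_1]

theorem sqR_quad {α β : K[X]} (γ : K[X]) (hβ : β ≠ 0) :
    SqR (C α * X ^ 2 + C β * X + C γ : K[X][X]) (α * β) := by
  intro θ hθ
  have hsep := sep_root (sep_quad α γ hβ) hθ
  refine ⟨algebraMap K[X] (RatFunc K) (α * γ), algebraMap K[X] (AlgebraicClosure (RatFunc K)) α * θ, ?_, ?_⟩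
  · rw [← amap]
    exact isSeparable_mul (isSeparable_algebraMap _) hsep
  · rw [amap]
    have h : algebraMap K[X] (AlgebraicClosure (RatFunc K)) α * θ ^ 2 + algebraMap K[X] (AlgebraicClosure (RatFunc K)) β * θ + algebraMap K[X] (AlgebraicClosure (RatFunc K)) γ = 0 := by
      rw [← hθ]
      simp only [map_add, map_mul, map_pow, aeval_C, aeval_X]
    rw [map_mul, map_mul]
    linear_combination (algebraMap K[X] (AlgebraicClosure (RatFunc K)) α) * h -
      (algebraMap K[X] (AlgebraicClosure (RatFunc K)) α * (algebraMap K[X] (AlgebraicClosure (RatFunc K)) β * θ + algebraMap K[X] (AlgebraicClosure (RatFunc K)) γ)) *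
        om_two (K := K)

theorem sep_bin {α β : K[X]} {k : ℕ} (hk : Odd k) (hβ : β ≠ 0) :
    ((C α * X ^ k + C β : K[X][X]).map (algebraMap K[X] (RatFunc K))).Separable := by
  have hd : derivative (C α * X ^ k + C β : K[X][X]) = C α * X ^ (k - 1) := by
    rw [derivative_add, derivative_C, add_zero, derivative_C_mul, derivative_X_pow,
      odd_eq_one hk, one_mul]
  rw [separable_def, derivative_map, hd]
  refine ⟨C (algebraMap K[X] (RatFunc K) β)⁻¹, - C (algebraMap K[X] (RatFunc K) β)⁻¹ * X, ?_⟩
  have hb : (C (algebraMap K[X] (RatFunc K) β)⁻¹ : (RatFunc K)[X]) *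
      C (algebraMap K[X] (RatFunc K) β) = 1 := by
    rw [← C_mul, inv_mul_cancel₀ (map_ne hβ), C_1]
  simp only [Polynomial.map_add, Polynomial.map_mul, Polynomial.map_pow, map_C, map_X]
  obtain ⟨j, rfl⟩ := hk
  rw [Nat.add_sub_cancel]
  linear_combination hb

theorem sqR_bin {α β : K[X]} {k : ℕ} (hk : Odd k) (hβ : β ≠ 0) :
    SqR (C α * X ^ k + C β : K[X][X]) (α * β) := by
  intro θ hθ
  have hsep := sep_root (sep_bin (α := α) hk hβ) hθ
  obtain ⟨j, rfl⟩ := hk
  refine ⟨0, algebraMap K[X] (AlgebraicClosure (RatFunc K)) α * θ ^ (j + 1), ?_, ?_⟩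
  · rw [← amap]
    exact isSeparable_mul (isSeparable_algebraMap _) (sep_pow hsep _)
  · have h : algebraMap K[X] (AlgebraicClosure (RatFunc K)) α * θ ^ (2 * j + 1) + algebraMap K[X] (AlgebraicClosure (RatFunc K)) β = 0 := by
      rw [← hθ]
      simp only [map_add, map_mul, map_pow, aeval_C, aeval_X]
    rw [map_zero, add_zero, map_mul]
    linear_combination (algebraMap K[X] (AlgebraicClosure (RatFunc K)) α * θ) * h -
      (algebraMap K[X] (AlgebraicClosure (RatFunc K)) α * algebraMap K[X] (AlgebraicClosure (RatFunc K)) β * θ) * om_two (K := K)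

omit [CharP K 2] in
theorem sep_const {f : K[X]} (hf : Squarefree f) [Fintype K] :
    ((f.map C : K[X][X]).map (algebraMap K[X] (RatFunc K))).Separable := by
  rw [Polynomial.map_map]
  exact (PerfectField.separable_iff_squarefree.2 hf).map

theorem sqR_const {f : K[X]} (hf : f ≠ 0) [Fintype K] : SqR (f.map C : K[X][X]) 1 := by
  intro θ hθ
  -- `θ` is algebraic over `K`, and every element of the algebraic closure of `K` is a square
  have hinst : IsScalarTower K K[X] (AlgebraicClosure (RatFunc K)) := inferInstance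
  have halg : IsAlgebraic K θ := by
    refine ⟨f, hf, ?_⟩
    rw [← hθ]
    rw [aeval_def, aeval_def, eval₂_map]
    congr 1
  have hint : IsIntegral K θ := halg.isIntegral
  have hfin : FiniteDimensional K (IntermediateField.adjoin K {θ}) :=
    IntermediateField.adjoin.finiteDimensional hint
  have hfin2 : Finite (IntermediateField.adjoin K {θ}) := Module.finite_of_finite K
  have hchar : CharP (IntermediateField.adjoin K {θ}) 2 :=
    charP_of_injective_algebraMap (algebraMap K (IntermediateField.adjoin K {θ})).injective 2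
  have hsurj : Function.Surjective (frobenius (IntermediateField.adjoin K {θ}) 2) :=
    (Finite.injective_iff_surjective (α := IntermediateField.adjoin K {θ})).1
      (frobenius (IntermediateField.adjoin K {θ}) 2).injective
  obtain ⟨σ, hσ⟩ := hsurj (IntermediateField.AdjoinSimple.gen K θ)
  rw [frobenius_def] at hσ
  have hσ2 : (σ : (AlgebraicClosure (RatFunc K))) ^ 2 = θ := by
    have := congrArg (fun x : IntermediateField.adjoin K {θ} => (x : (AlgebraicClosure (RatFunc K)))) hσ
    simpa using this
  refine ⟨0, σ, ?_, ?_⟩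
  · have hK : IsSeparable K (σ : (AlgebraicClosure (RatFunc K))) := by
      have h1 : IsIntegral K (σ : (AlgebraicClosure (RatFunc K))) := by
        refine IsIntegral.of_pow (n := 2) (by norm_num) ?_
        rw [hσ2]
        exact hint
      exact PerfectField.separable_of_irreducible (minpoly.irreducible h1)
    exact IsSeparable.tower_top (RatFunc K) hK
  · rw [hσ2, map_zero, add_zero, map_one, one_mul]

end Pool.Agent.H140.PE
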